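import Pool.Agent.Work.MP_46fa68_47.Src1

set_option autoImplicit false

open Finset Equiv

namespace Pool.OB

open Pool.JM

/-! ## the value of the source at the level `m` -/

/-- the position of the beads of a shape with `m` boxes -/
theorem bead_le {K m : ℕ} {B : Finset ℕ} (hB : B ∈ Lv K m) (hm : 1 ≤ m) {x : ℕ} (hx : x ∈ B) :
    x ≤ K - 1 + m := by
  have := (Lv_spec hB).2.2.1 x hx
  omega

theorem bead_top {K m : ℕ} {B : Finset ℕ} (hK : 1 ≤ K) (hB : B ∈ Lv K m)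
    (hx : K - 1 + m ∈ B) : B = Rw K m := by
  obtain ⟨hc, -, -, hs⟩ := Lv_spec hB
  have e1 := add_sum_erase B (fun z => z) hx
  have hc1 : (B.erase (K - 1 + m)).card = K - 1 := by rw [card_erase_of_mem hx, hc]
  have e2 : ∑ y ∈ range K, y = ∑ y ∈ range (K - 1), y + (K - 1) := by
    obtain ⟨k, rfl⟩ : ∃ k, K = k + 1 := ⟨K - 1, by omega⟩
    rw [Nat.add_sub_cancel, sum_range_succ]
  have h1 : B.erase (K - 1 + m) = range (K - 1) := eq_range_of_sum hc1 (by omega)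
  rw [← insert_erase hx, h1]
  rfl

/-- the ratio of the one-row shape -/
theorem Rr_row {K m : ℕ} (p : ℕ) :
    Rr (Rw K m) (K - 1 + m) p = (m.factorial : ℝ) / (m + p).factorial := by
  have he : (Rw K m).erase (K - 1 + m) = range (K - 1) := by
    unfold Rw
    rw [erase_insert]
    rw [mem_range]
    omega
  have h1 := prod_rest (K - 1) m p
  unfold Rr
  rw [he, h1]
  have f1 : (0 : ℝ) < (K - 1 + m).factorial := by exact_mod_cast (K - 1 + m).factorial_pos
  have f2 : (0 : ℝ) < (K - 1 + m + p).factorial := by exact_mod_cast (K - 1 + m + p).factorial_pos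
  have f3 : (0 : ℝ) < (m + p).factorial := by exact_mod_cast (m + p).factorial_pos
  field_simp

/-- the weight of the displacement `p` at the shape `(m - 1, 1)` -/
noncomputable def r1 (m p : ℕ) : ℝ :=
  (((m - 1 : ℕ) : ℝ) + p) / ((m - 1 : ℕ) : ℝ) * ((m.factorial : ℝ) / (m + p).factorial)

/-- the value at the shape `(m)` -/
noncomputable def sv (m n : ℕ) (v : ℕ → ℝ) : ℝ :=
  ∑ p ∈ range n, v p * ((m.factorial : ℝ) / (m + p).factorial)

theorem ks_low {M0 Q : ℕ} (hM : 1 ≤ M0) (hQ : 2 ≤ Q) (v : ℕ → ℕ → ℝ) (τ : ℝ) {x : ℕ}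
    (hx : x ≤ M0) (p : ℕ) :
    ks M0 Q v τ (dlt 0) x p = (if x = M0 - 1 then v 0 p else 0) + if x = M0 then v 1 p else 0 := by
  rw [ks_dlt (by omega), if_neg (by omega : ¬ (p = 0 ∧ M0 + Q - 1 ≤ x)), mul_zero, add_zero,
    ← sum_subset (range_subset_range.2 hQ), sum_range_succ, sum_range_succ, range_zero, sum_empty,
    zero_add]
  · congr 1
  · intro q _ hq
    rw [mem_range, not_lt] at hq
    rw [if_neg (by omega)]

theorem src_value {K A m Q : ℕ} (hK : 1 ≤ K) (hm : 2 ≤ m) (hQ : 2 ≤ Q) (v : ℕ → ℕ → ℝ) (τ : ℝ)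
    (h0 : ∑ p ∈ range (A + 1), v 0 p * r1 m p = 0) {B : Finset ℕ} (hB : B ∈ Lv K m) :
    ∑ x ∈ B, ∑ p ∈ range (A + 1), ks (K - 1 + m) Q v τ (dlt 0) x p * Rr B x p =
      if B = Rw K m then sv m (A + 1) (v 1) else 0 := by
  have h1 : ∀ x ∈ B, ∑ p ∈ range (A + 1), ks (K - 1 + m) Q v τ (dlt 0) x p * Rr B x p =
      (if x = K - 1 + m - 1 then ∑ p ∈ range (A + 1), v 0 p * Rr B x p else 0) +
      if x = K - 1 + m then ∑ p ∈ range (A + 1), v 1 p * Rr B x p else 0 := by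
    intro x hx
    have h := bead_le hB (by omega) hx
    rw [sum_congr rfl fun p _ => by rw [ks_low (by omega) hQ v τ h p, add_mul], sum_add_distrib]
    congr 1
    · split_ifs
      · rfl
      · simp
    · split_ifs
      · rfl
      · simp
  rw [sum_congr rfl h1, sum_add_distrib, sum_ite_eq', sum_ite_eq']
  have e1 : (if K - 1 + m - 1 ∈ B then
      ∑ p ∈ range (A + 1), v 0 p * Rr B (K - 1 + m - 1) p else 0) = 0 := by
    split_ifs with hx
    · rw [show K - 1 + m - 1 = K - 1 + (m - 1) by omega] at hx ⊢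
      obtain ⟨s1, s2⟩ := shape_one hm hK hB hx
      rw [← h0]
      refine sum_congr rfl fun p _ => ?_
      rw [Rr_one (by omega) s1 s2, show m - 1 + 1 = m by omega]
      rfl
    · rfl
  rw [e1, zero_add]
  by_cases hx : K - 1 + m ∈ B
  · rw [if_pos hx, if_pos (bead_top hK hB hx), bead_top hK hB hx]
    refine sum_congr rfl fun p _ => ?_
    rw [Rr_row]
  · rw [if_neg hx, if_neg]
    rintro rfl
    exact hx (mem_insert_self _ _)

/-! ## the tail -/

theorem kx_abs (M0 t : ℕ) (v : ℕ → ℝ) (V : ℝ) (hV : ∀ n, ∑ p ∈ range n, |v p| ≤ V) (x p : ℕ) :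
    |kx M0 v (bi t) x p| ≤ V * (2 ^ t * 4 ^ p) := by
  have h4 : ∀ a : ℕ, (4 : ℝ) ^ a = 2 ^ a * 2 ^ a := fun a => by
    rw [← mul_pow]; norm_num
  have hV0 : 0 ≤ V := by simpa using hV 0
  unfold kx
  split_ifs
  · refine (abs_sum_le_sum_abs _ _).trans ?_
    have h : ∀ a ∈ range (p + 1), |bi t a * ((-1) ^ (a + (M0 - 1 - x)) *
        (a.choose (M0 - 1 - x) : ℝ)) * v (p - a)| ≤ (2 ^ t * 4 ^ p) * |v (p - a)| := by
      intro a ha
      rw [mem_range] at ha
      rw [abs_mul]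
      refine mul_le_mul_of_nonneg_right ?_ (abs_nonneg _)
      have h7 : |((-1 : ℝ)) ^ (a + (M0 - 1 - x)) * (a.choose (M0 - 1 - x) : ℝ)| =
          (a.choose (M0 - 1 - x) : ℝ) := by
        rw [abs_mul, abs_pow, abs_neg, abs_one, one_pow, one_mul,
          abs_of_nonneg (Nat.cast_nonneg (a.choose (M0 - 1 - x)))]
      rw [abs_mul, h7]
      have h5 : a.choose (M0 - 1 - x) ≤ 2 ^ a := Nat.choose_le_two_pow _ _
      have h5' : ((a.choose (M0 - 1 - x) : ℕ) : ℝ) ≤ 2 ^ a := by exact_mod_cast h5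
      calc |bi t a| * ((a.choose (M0 - 1 - x) : ℕ) : ℝ)
          ≤ (2 ^ t * 2 ^ a) * 2 ^ a :=
            mul_le_mul (bi_abs _ _) h5' (Nat.cast_nonneg _) (by positivity)
        _ = 2 ^ t * 4 ^ a := by rw [h4]; ring
        _ ≤ _ := mul_le_mul_of_nonneg_left (pow_le_pow_right₀ (by norm_num) (by omega))
            (by positivity)
    refine (sum_le_sum h).trans ?_
    rw [← mul_sum, mul_comm]
    refine mul_le_mul_of_nonneg_right ?_ (by positivity)
    have h6 : ∑ a ∈ range (p + 1), |v (p - a)| = ∑ a ∈ range (p + 1), |v a| := by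
      have := sum_range_reflect (fun a => |v a|) (p + 1)
      rw [← this]
      refine sum_congr rfl fun a _ => ?_
      rw [Nat.add_sub_cancel]
    rw [h6]
    exact hV _
  · rw [abs_zero]
    positivity

theorem ks_abs (M0 Q t : ℕ) (v : ℕ → ℕ → ℝ) (τ : ℝ) (V : ℕ → ℝ)
    (hV : ∀ q n, ∑ p ∈ range n, |v q p| ≤ V q) (x p : ℕ) :
    |ks M0 Q v τ (bi t) x p| ≤ (∑ q ∈ range Q, V q + |τ|) * 2 ^ t * 4 ^ p := by
  have h4 : ∀ a : ℕ, (4 : ℝ) ^ a = 2 ^ a * 2 ^ a := fun a => by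
    rw [← mul_pow]; norm_num
  unfold ks
  have e1 : |kc (M0 + Q - 1) (bi t) x p| ≤ 2 ^ t * 4 ^ p := by
    unfold kc
    rw [abs_mul, h4, ← mul_assoc]
    exact mul_le_mul (bi_abs _ _) (kp_abs _ _ _) (abs_nonneg _) (by positivity)
  calc _ ≤ |∑ q ∈ range Q, kx (M0 + q) (v q) (bi t) x p| + |τ * kc (M0 + Q - 1) (bi t) x p| :=
        abs_add_le _ _
    _ ≤ ∑ q ∈ range Q, V q * (2 ^ t * 4 ^ p) + |τ| * (2 ^ t * 4 ^ p) := by
        refine add_le_add ((abs_sum_le_sum_abs _ _).trans (sum_le_sum fun q _ =>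
          kx_abs _ _ _ _ (hV q) _ _)) ?_
        rw [abs_mul]
        exact mul_le_mul_of_nonneg_left e1 (abs_nonneg _)
    _ = _ := by rw [← sum_mul]; ring

theorem Hs_tail {K A m t Q : ℕ} (v : ℕ → ℕ → ℝ) (τ : ℝ) (V : ℕ → ℝ)
    (hV : ∀ q n, ∑ p ∈ range n, |v q p| ≤ V q) {B : Finset ℕ} (hB : B.card = K) :
    |∑ x ∈ B, ∑ p ∈ Ico (A + 1) (A + 1 + t),
        pk^[t] (cut A (ks (K - 1 + m) Q v τ (bi t))) x p * Rr B x p| ≤
      (t * 3 ^ t * (∑ q ∈ range Q, V q + |τ|) * 4 ^ t) * (K * (8 ^ A / (A.factorial : ℝ))) := by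
  have hV0 : 0 ≤ ∑ q ∈ range Q, V q + |τ| := by
    have : ∀ q, 0 ≤ V q := fun q => by simpa using hV q 0
    exact add_nonneg (sum_nonneg fun q _ => this q) (abs_nonneg _)
  set C : ℝ := ∑ q ∈ range Q, V q + |τ| with hC
  have hk : ∀ x p, |cut A (ks (K - 1 + m) Q v τ (bi t)) x p| ≤ C * 2 ^ t * 4 ^ A := by
    intro x p
    unfold cut
    split_ifs with h
    · refine (ks_abs _ _ _ _ _ V hV _ _).trans ?_
      exact mul_le_mul_of_nonneg_left (pow_le_pow_right₀ (by norm_num) h) (by positivity)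
    · rw [abs_zero]; positivity
  have hterm : ∀ x ∈ B, ∀ p ∈ Ico (A + 1) (A + 1 + t),
      |pk^[t] (cut A (ks (K - 1 + m) Q v τ (bi t))) x p * Rr B x p| ≤
        3 ^ t * (C * 2 ^ t * 4 ^ A) * (2 ^ (A + t) / (A.factorial : ℝ)) := by
    intro x _ p hp
    rw [mem_Ico] at hp
    rw [abs_mul]
    refine mul_le_mul (pk_abs_le hk t x p) ?_ (abs_nonneg _) (by positivity)
    refine (Rr_le' B x p (by omega)).trans ?_
    have h1 : (2 : ℝ) ^ (p - 1) ≤ 2 ^ (A + t) := pow_le_pow_right₀ (by norm_num) (by omega)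
    have h2 : (A.factorial : ℝ) ≤ p.factorial := by
      exact_mod_cast Nat.factorial_le (by omega : A ≤ p)
    have h3 : (0 : ℝ) < A.factorial := by exact_mod_cast Nat.factorial_pos _
    exact div_le_div₀ (by positivity) h1 h3 h2
  refine (abs_sum_le_sum_abs _ _).trans ?_
  have h1 : ∀ x ∈ B, |∑ p ∈ Ico (A + 1) (A + 1 + t),
      pk^[t] (cut A (ks (K - 1 + m) Q v τ (bi t))) x p * Rr B x p| ≤
      t * (3 ^ t * (C * 2 ^ t * 4 ^ A) * (2 ^ (A + t) / (A.factorial : ℝ))) := by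
    intro x hx
    refine (abs_sum_le_sum_abs _ _).trans ((sum_le_sum (hterm x hx)).trans ?_)
    rw [sum_const, Nat.card_Ico, nsmul_eq_mul, show A + 1 + t - (A + 1) = t by omega]
  refine (sum_le_sum h1).trans ?_
  rw [sum_const, hB, nsmul_eq_mul]
  have e8 : (8 : ℝ) ^ A = 4 ^ A * 2 ^ A := by rw [← mul_pow]; norm_num
  have e4 : (4 : ℝ) ^ t = 2 ^ t * 2 ^ t := by rw [← mul_pow]; norm_num
  rw [e8, e4, pow_add]
  refine le_of_eq ?_
  ring

theorem tendsto_tail (c : ℝ) (D : ℕ) : Filter.Tendsto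
    (fun A : ℕ => c * (((A + D : ℕ) : ℝ) * (8 ^ A / (A.factorial : ℝ)))) Filter.atTop (nhds 0) := by
  have h1 := FloorSemiring.tendsto_pow_div_factorial_atTop (16 : ℝ)
  have h2 : Filter.Tendsto (fun A : ℕ => (1 + (D : ℝ)) * (16 ^ A / (A.factorial : ℝ)))
      Filter.atTop (nhds 0) := by
    have := h1.const_mul (1 + (D : ℝ))
    simpa using this
  have h3 : Filter.Tendsto (fun A : ℕ => (((A + D : ℕ) : ℝ) * (8 ^ A / (A.factorial : ℝ))))
      Filter.atTop (nhds 0) := by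
    refine squeeze_zero (fun A => by positivity) (fun A => ?_) h2
    have h3 : ((A + D : ℕ) : ℝ) ≤ (1 + D) * 2 ^ A := by
      have h4 : (A : ℝ) ≤ 2 ^ A := by
        have := @Nat.lt_two_pow_self A
        exact_mod_cast this.le
      have h5 : (1 : ℝ) ≤ 2 ^ A := one_le_pow₀ (by norm_num)
      have h6 : (0 : ℝ) ≤ D := Nat.cast_nonneg D
      push_cast
      nlinarith
    calc ((A + D : ℕ) : ℝ) * (8 ^ A / (A.factorial : ℝ))
        ≤ ((1 + D) * 2 ^ A) * (8 ^ A / (A.factorial : ℝ)) :=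
          mul_le_mul_of_nonneg_right h3 (by positivity)
      _ = (1 + (D : ℝ)) * (16 ^ A / (A.factorial : ℝ)) := by
          have e : (16 : ℝ) ^ A = 2 ^ A * 8 ^ A := by rw [← mul_pow]; norm_num
          rw [e]
          ring
  simpa using h3.const_mul c

end Pool.OB
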