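import Pool.Agent.Work.MP_46fa68_47.Kl

/-!
# MP_46fa68_co: the source lemma with the infinite formula

`HI K m t Q v τ B = ∑_(x ∈ B) ∑'_p kl t Q v τ (M0 - x) p * Rr B x p`, `M0 = K - 1 + m`.
-/

set_option autoImplicit false

open Finset Equiv

namespace Pool.OB

open Pool.JM

/-- the contribution of the bead `x` -/
noncomputable def HIx (K m t Q : ℕ) (v : ℕ → ℕ → ℝ) (τ : ℝ) (B : Finset ℕ) (x : ℕ) : ℝ :=
  ∑' p, kl t Q v τ (((K - 1 + m : ℕ) : ℤ) - x) p * Rr B x p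

/-- **the one-bead function, exact formula** -/
noncomputable def HI (K m t Q : ℕ) (v : ℕ → ℕ → ℝ) (τ : ℝ) (B : Finset ℕ) : ℝ :=
  ∑ x ∈ B, HIx K m t Q v τ B x

theorem Rr_zero' {B : Finset ℕ} (x : ℕ) : Rr B x 0 = 1 := by
  unfold Rr
  rw [prod_eq_one, Nat.add_zero, div_self, one_mul]
  · exact_mod_cast x.factorial_ne_zero
  · intro y hy
    have h : (x : ℝ) - y ≠ 0 := by
      rw [sub_ne_zero]
      intro h
      exact ne_of_mem_erase hy (Nat.cast_injective h).symm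
    rw [Nat.cast_zero, add_zero, div_self h]

theorem Rr_abs (B : Finset ℕ) (x p : ℕ) : |Rr B x p| ≤ 2 ^ p / p.factorial := by
  rcases Nat.eq_zero_or_pos p with rfl | hp
  · rw [Rr_zero']; simp
  · refine (Rr_le' B x p hp).trans ?_
    have h3 : (0 : ℝ) < p.factorial := by exact_mod_cast p.factorial_pos
    exact div_le_div_of_nonneg_right (pow_le_pow_right₀ (by norm_num) (by omega)) h3.le

/-- a bound of the total weights -/
def VB (v : ℕ → ℕ → ℝ) (V : ℕ → ℝ) : Prop := ∀ q n, ∑ p ∈ range n, |v q p| ≤ V q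

theorem kl_abs {t Q : ℕ} (hQ : 1 ≤ Q) {v : ℕ → ℕ → ℝ} (τ : ℝ) {V : ℕ → ℝ} (hV : VB v V)
    {M0 x : ℕ} (hM : 1 ≤ M0) (p : ℕ) :
    |kl t Q v τ ((M0 : ℤ) - x) p| ≤ (∑ q ∈ range Q, V q + |τ|) * 2 ^ t * 4 ^ p := by
  rw [← ks_kl hM hQ]
  exact ks_abs _ _ _ _ _ V hV _ _

theorem term_abs {t Q : ℕ} (hQ : 1 ≤ Q) {v : ℕ → ℕ → ℝ} (τ : ℝ) {V : ℕ → ℝ} (hV : VB v V)
    {M0 : ℕ} (hM : 1 ≤ M0) (B : Finset ℕ) (x p : ℕ) :
    |kl t Q v τ ((M0 : ℤ) - x) p * Rr B x p| ≤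
      (∑ q ∈ range Q, V q + |τ|) * 2 ^ t * (8 ^ p / p.factorial) := by
  have hV0 : 0 ≤ ∑ q ∈ range Q, V q + |τ| := by
    have : ∀ q, 0 ≤ V q := fun q => by simpa using hV q 0
    exact add_nonneg (sum_nonneg fun q _ => this q) (abs_nonneg _)
  rw [abs_mul]
  have e8 : (8 : ℝ) ^ p = 4 ^ p * 2 ^ p := by rw [← mul_pow]; norm_num
  rw [e8, mul_div_assoc, ← mul_assoc]
  exact mul_le_mul (kl_abs hQ τ hV hM p) (Rr_abs B x p) (abs_nonneg _) (by positivity)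

theorem summable_term {t Q : ℕ} (hQ : 1 ≤ Q) {v : ℕ → ℕ → ℝ} (τ : ℝ) {V : ℕ → ℝ} (hV : VB v V)
    {M0 : ℕ} (hM : 1 ≤ M0) (B : Finset ℕ) (x : ℕ) :
    Summable fun p => kl t Q v τ ((M0 : ℤ) - x) p * Rr B x p := by
  refine Summable.of_norm_bounded (g := fun p : ℕ =>
    (∑ q ∈ range Q, V q + |τ|) * 2 ^ t * ((8 : ℝ) ^ p / p.factorial)) ?_ fun p => ?_
  · exact (Real.summable_pow_div_factorial 8).mul_left _
  · rw [Real.norm_eq_abs]
    exact term_abs hQ τ hV hM B x p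

/-- the tail of the exponential series -/
theorem tail_exp (A : ℕ) : ∑' p, (8 : ℝ) ^ (p + (A + 1)) / ((p + (A + 1)).factorial : ℝ) ≤
    (1 / 2) ^ A * Real.exp 16 := by
  have h1 : Summable fun p : ℕ => (8 : ℝ) ^ (p + (A + 1)) / ((p + (A + 1)).factorial : ℝ) :=
    (summable_nat_add_iff (A + 1)).2 (Real.summable_pow_div_factorial 8)
  have h2 : Summable fun p : ℕ => (16 : ℝ) ^ (p + (A + 1)) / ((p + (A + 1)).factorial : ℝ) :=
    (summable_nat_add_iff (A + 1)).2 (Real.summable_pow_div_factorial 16)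
  have h3 : ∀ p : ℕ, (8 : ℝ) ^ (p + (A + 1)) / ((p + (A + 1)).factorial : ℝ) ≤
      (1 / 2) ^ A * ((16 : ℝ) ^ (p + (A + 1)) / ((p + (A + 1)).factorial : ℝ)) := by
    intro p
    have f : (0 : ℝ) < ((p + (A + 1)).factorial : ℝ) := by
      exact_mod_cast (p + (A + 1)).factorial_pos
    have e : (8 : ℝ) ^ (p + (A + 1)) = (1 / 2) ^ (p + (A + 1)) * 16 ^ (p + (A + 1)) := by
      rw [← mul_pow]; norm_num
    rw [e, mul_div_assoc]
    refine mul_le_mul_of_nonneg_right ?_ (by positivity)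
    exact pow_le_pow_of_le_one (by norm_num) (by norm_num) (by omega)
  have h4 : ∑' p, (16 : ℝ) ^ (p + (A + 1)) / ((p + (A + 1)).factorial : ℝ) ≤ Real.exp 16 := by
    have e := (Real.summable_pow_div_factorial 16).sum_add_tsum_nat_add (A + 1)
    have e2 : Real.exp 16 = ∑' p, (16 : ℝ) ^ p / (p.factorial : ℝ) := by
      rw [Real.exp_eq_exp_ℝ, NormedSpace.exp_eq_tsum_div]
    rw [e2, ← e]
    have : 0 ≤ ∑ i ∈ range (A + 1), (16 : ℝ) ^ i / (i.factorial : ℝ) :=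
      sum_nonneg fun _ _ => by positivity
    linarith
  calc _ ≤ ∑' p, (1 / 2) ^ A * ((16 : ℝ) ^ (p + (A + 1)) / ((p + (A + 1)).factorial : ℝ)) :=
        Summable.tsum_le_tsum h3 h1 (h2.mul_left _)
    _ = (1 / 2) ^ A * ∑' p, ((16 : ℝ) ^ (p + (A + 1)) / ((p + (A + 1)).factorial : ℝ)) :=
        tsum_mul_left
    _ ≤ _ := mul_le_mul_of_nonneg_left h4 (by positivity)

theorem HIx_cut {t Q m K : ℕ} (hm : 1 ≤ m) (hQ : 1 ≤ Q) {v : ℕ → ℕ → ℝ} (τ : ℝ)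
    {V : ℕ → ℝ} (hV : VB v V) (B : Finset ℕ) (x A : ℕ) :
    |∑ p ∈ range (A + 1), kl t Q v τ (((K - 1 + m : ℕ) : ℤ) - x) p * Rr B x p -
      HIx K m t Q v τ B x| ≤
      (∑ q ∈ range Q, V q + |τ|) * 2 ^ t * ((1 / 2) ^ A * Real.exp 16) := by
  have hs := summable_term hQ τ hV (M0 := K - 1 + m) (by omega) (t := t) B x
  have hV0 : 0 ≤ ∑ q ∈ range Q, V q + |τ| := by
    have : ∀ q, 0 ≤ V q := fun q => by simpa using hV q 0
    exact add_nonneg (sum_nonneg fun q _ => this q) (abs_nonneg _)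
  unfold HIx
  rw [← hs.sum_add_tsum_nat_add (A + 1), sub_add_cancel_left, abs_neg]
  have h1 : Summable fun p : ℕ => (8 : ℝ) ^ (p + (A + 1)) / ((p + (A + 1)).factorial : ℝ) :=
    (summable_nat_add_iff (A + 1)).2 (Real.summable_pow_div_factorial 8)
  have h2 := tsum_of_norm_bounded (f := fun p : ℕ =>
      kl t Q v τ (((K - 1 + m : ℕ) : ℤ) - x) (p + (A + 1)) * Rr B x (p + (A + 1)))
    (h1.mul_left ((∑ q ∈ range Q, V q + |τ|) * 2 ^ t)).hasSum (fun p => by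
      rw [Real.norm_eq_abs]
      exact term_abs hQ τ hV (by omega) B x _)
  rw [Real.norm_eq_abs, tsum_mul_left] at h2
  exact h2.trans (mul_le_mul_of_nonneg_left (tail_exp A) (by positivity))

theorem Hs_HI {K A m t Q : ℕ} (hm : 1 ≤ m) (hQ : 1 ≤ Q) {v : ℕ → ℕ → ℝ} (τ : ℝ)
    {V : ℕ → ℝ} (hV : VB v V) {B : Finset ℕ} (hB : B ∈ Lv K (m + t)) :
    |Hs K A m t Q v τ B - HI K m t Q v τ B| ≤
      ((∑ q ∈ range Q, V q + |τ|) * 2 ^ t * Real.exp 16) * (K * (1 / 2) ^ A) := by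
  rw [Hs_top_kl hm hQ v τ hB]
  unfold HI
  rw [← sum_sub_distrib]
  refine (abs_sum_le_sum_abs _ _).trans ?_
  refine (sum_le_sum fun x _ => HIx_cut hm hQ τ hV B x A).trans (le_of_eq ?_)
  rw [sum_const, (Lv_spec hB).1, nsmul_eq_mul]
  ring

theorem tendsto_half (c : ℝ) (D : ℕ) : Filter.Tendsto
    (fun A : ℕ => c * (((A + D : ℕ) : ℝ) * (1 / 2) ^ A)) Filter.atTop (nhds 0) := by
  have h1 := tendsto_self_mul_const_pow_of_lt_one (r := (1 / 2 : ℝ)) (by norm_num) (by norm_num)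
  have h2 := (tendsto_pow_atTop_nhds_zero_of_lt_one (r := (1 / 2 : ℝ)) (by norm_num)
    (by norm_num)).const_mul (D : ℝ)
  have h3 := (h1.add h2).const_mul c
  rw [mul_zero, add_zero, mul_zero] at h3
  refine h3.congr fun A => ?_
  push_cast
  ring

/-- **The source lemma with the exact formula.** -/
theorem source_inf {m t Q p1 : ℕ} (hm : 2 ≤ m) (hQ : 2 ≤ Q) (v : ℕ → ℕ → ℝ) (τ c0 : ℝ)
    (hv : ∀ q p, p1 ≤ p → v q p = 0) (h0 : ∑ p ∈ range p1, v 0 p * r1 m p = 0)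
    {δ : ℝ} (hδ : 0 < δ) : ∃ K₀ : ℕ, ∀ K, K₀ ≤ K → ∃ a : Finset ℕ → ℝ,
      Harm K m (m + t) a ∧
      (∀ N, N < K → m ≤ N → Val N K m a c0 (-sv m p1 (v 1) - δ)) ∧
      ∀ B ∈ Lv K (m + t), |a B - (c0 + HI K m t Q v τ B)| ≤ δ := by
  set V : ℕ → ℝ := fun q => ∑ p ∈ range p1, |v q p| with hVd
  have hV : VB v V := by
    intro q n
    by_cases h : n ≤ p1
    · exact sum_le_sum_of_subset_of_nonneg (range_subset_range.2 h) fun _ _ _ => abs_nonneg _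
    · rw [sum_cut (by omega : p1 ≤ n) fun p hp => by rw [hv q p hp, abs_zero]]
  obtain ⟨A₀, hA₀⟩ := source (t := t) hm hQ v τ c0 hv h0 hδ (t + 2 + m)
  obtain ⟨A₁, hA₁⟩ := Filter.eventually_atTop.1
    ((tendsto_half ((∑ q ∈ range Q, V q + |τ|) * 2 ^ t * Real.exp 16) (t + 2 + m)).eventually
      (gt_mem_nhds hδ))
  refine ⟨max A₀ A₁ + (t + 2 + m), fun K hK => ?_⟩
  obtain ⟨A, rfl⟩ : ∃ A, K = A + (t + 2 + m) := ⟨K - (t + 2 + m), by omega⟩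
  have h0' : A₀ ≤ A := by
    have := le_max_left A₀ A₁
    omega
  have h1' : A₁ ≤ A := by
    have := le_max_right A₀ A₁
    omega
  obtain ⟨s1, s2, -⟩ := hA₀ A h0' (A + (t + 2 + m)) (by omega) le_rfl
  refine ⟨_, s1, s2, fun B hB => ?_⟩
  have e : c0 + Hs (A + (t + 2 + m)) A m t Q v τ B - (c0 + HI (A + (t + 2 + m)) m t Q v τ B) =
      Hs (A + (t + 2 + m)) A m t Q v τ B - HI (A + (t + 2 + m)) m t Q v τ B := by ring
  rw [e]
  exact (Hs_HI (by omega) (by omega) τ hV hB).trans (hA₁ A h1').le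

end Pool.OB
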