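import Pool.Agent.Work.MP_46fa68_47.Pair

/-!
# MP_46fa68_co: the e-term of the pair form

`B_p` = the permutations of `N = k + t` points with more than `k` marks.
* `self_big2`: `B_p` is `(t + 2)`-intersecting, so `|B_p| ≤ c (k - 2)!` by a ratio bound of level `k - 2` (`SB`);
* `cross_val`, `CB_of_HI`: the cross bound (level `k - 1`) with approximate values;
* `TC.excl2`: the exclusion of an interval of densities with the e-term from `SB`.
-/

set_option autoImplicit false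

open Finset Equiv

namespace Pool.TW

open Pool.JM Pool.OS Pool.JM.Rare

/-- members with more than `m` marks agree in `t + 2` places -/
theorem self_big2 {N m t : ℕ} {Q : Finset (Perm (Fin N))} {W : Perm (Fin N) → Finset (Fin N)}
    (h : Fib t Q W) (hN : N = m + t) (hm : 2 ≤ m) {π π' : Perm (Fin N)}
    (hπ : m + 1 ≤ (W π).card) (hπ' : m + 1 ≤ (W π').card) : t + 2 ≤ ag π π' := by
  have h1 := h.self_big hN hm hπ hπ'
  rw [ag_eq_cols] at h1 ⊢
  obtain ⟨w, hw1, hw2⟩ := meet (E := W π) (F := cols π π') (by omega)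
  have h3 : 2 ≤ (W π' ∩ cols π π').card := by
    have h4 := card_union_add_card_inter (W π') (cols π π')
    have h5 : (W π' ∪ cols π π').card ≤ N := (card_le_univ _).trans (by rw [Fintype.card_fin])
    omega
  obtain ⟨w', hw'⟩ : ((W π' ∩ cols π π').erase w).Nonempty := by
    rw [← card_pos]
    have := pred_card_le_card_erase (s := W π' ∩ cols π π') (a := w)
    omega
  obtain ⟨h6, h7⟩ := mem_erase.1 hw'
  obtain ⟨h8, h9⟩ := mem_inter.1 h7
  have h5 := h.hW π π' w hw1 w' h8 (Ne.symm h6)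
  rw [if_neg, add_zero] at h5
  · have e1 : (((cols π π').erase w).erase w').card = (cols π π').card - 1 - 1 := by
      rw [card_erase_of_mem (mem_erase.2 ⟨h6, h9⟩), card_erase_of_mem hw2]
    have e2 : (W π' ∩ cols π π').card ≤ (cols π π').card := card_le_card inter_subset_right
    omega
  · rw [mem_cols.1 hw2]
    intro h10
    exact h6 ((π'⁻¹).injective h10).symm

/-! ### bounds for families from approximate values -/

/-- `s`-intersecting families on `N` points have at most `X` members -/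
def SB (N s : ℕ) (X : ℝ) : Prop :=
  ∀ B : Finset (Perm (Fin N)), (∀ σ ∈ B, ∀ τ ∈ B, s ≤ ag σ τ) → (B.card : ℝ) ≤ X

theorem SB.mono {N s : ℕ} {X X' : ℝ} (h : SB N s X) (hX : X ≤ X') : SB N s X' :=
  fun B hB => (h B hB).trans hX

theorem CB.mono {N s : ℕ} {X X' : ℝ} (h : CB N s X) (hX : X ≤ X') : CB N s X' :=
  fun Q B hB => (h Q B hB).trans hX

/-- the entries on pairs -/
theorem entry_le {n m s M : ℕ} (hM : n + 1 < M) (hs : n + 1 = m + s) (hs1 : 1 ≤ s)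
    (a : Finset ℕ → ℝ) (p q : ℝ) (h1 : Harm M m (n + 1) a) (h2 : Val (n + 1) M m a p q)
    {σ τ : Perm (Fin (n + 1))} (hA : s ≤ ag σ τ) :
    G (n + 1) M a (n + 1) σ τ ≤ (if σ = τ then p else 0) - q / m.factorial :=
  pair_le hM (by omega : m ≤ n) (Or.inr rfl) a p q h1 h2 (fun h => by omega) (by
    unfold ag at hA
    omega)

/-- **the ratio bound with approximate values** -/
theorem SB_of {n m s M : ℕ} (hM : n + 1 < M) (hs : n + 1 = m + s) (hs1 : 1 ≤ s)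
    (a : Finset ℕ → ℝ) (p q : ℝ) (hp : 0 ≤ p) (hq : 0 < q) (h1 : Harm M m (n + 1) a)
    (h2 : Val (n + 1) M m a p q) (h3 : ∀ B ∈ Lv M (n + 1), 0 ≤ a B) :
    SB (n + 1) s (p / q * m.factorial) := by
  intro B hB
  have hf : (0 : ℝ) < m.factorial := by exact_mod_cast m.factorial_pos
  have hq0 : 0 ≤ qf (n + 1) M a (vec B) (vec B) := by
    rw [qf_eq hM]
    refine Finset.sum_nonneg fun D hD => mul_nonneg (h3 D hD) ?_
    exact Finset.sum_nonneg fun σ _ => mul_self_nonneg _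
  have h := qf_weights (M := M) a (vec B) (vec B) (vec_nonneg _) (vec_nonneg _) p
    (q / m.factorial) (fun σ τ hσ hτ => entry_le hM hs hs1 a p q h1 h2
      (hB _ (mem_of_vec hσ) _ (mem_of_vec hτ)))
  rw [sum_vec, sum_vec_mul] at h
  have h4 : 0 ≤ p * (B.card : ℝ) - q / m.factorial * ((B.card : ℝ) * B.card) := hq0.trans h
  rcases eq_or_lt_of_le (Nat.cast_nonneg (α := ℝ) B.card) with h5 | h5
  · rw [← h5]
    positivity
  · have h6 : q / m.factorial * (B.card : ℝ) ≤ p := by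
      have : (B.card : ℝ) * (q / m.factorial * B.card) ≤ B.card * p := by linarith
      exact le_of_mul_le_mul_left this h5
    rw [div_mul_eq_mul_div, div_le_iff₀ hf] at h6
    rw [div_mul_eq_mul_div, le_div_iff₀ hq]
    linarith

/-- **the two-sided (cross) ratio bound with approximate values** -/
theorem cross_val {n m s M : ℕ} (hM : n + 1 < M) (hs : n + 1 = m + s) (hs1 : 1 ≤ s)
    (a : Finset ℕ → ℝ) (c q : ℝ) (hq : 0 < q) (h1 : Harm M m (n + 1) a)
    (h2 : Val (n + 1) M m a 0 q) (h3 : ∀ B ∈ Lv M (n + 1), |a B| ≤ c) :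
    CB (n + 1) s ((c / q * m.factorial) ^ 2) := by
  intro A B hAB
  have hf : (0 : ℝ) < m.factorial := by exact_mod_cast m.factorial_pos
  rcases Nat.eq_zero_or_pos A.card with hA0 | hA0
  · rw [hA0, Nat.cast_zero, zero_mul]
    positivity
  rcases Nat.eq_zero_or_pos B.card with hB0 | hB0
  · rw [hB0, Nat.cast_zero, mul_zero]
    positivity
  have ha : (0 : ℝ) < A.card := by exact_mod_cast hA0
  have hb : (0 : ℝ) < B.card := by exact_mod_cast hB0
  have hN : ∀ F : Finset (Perm (Fin (n + 1))), ∑ D ∈ Lv M (n + 1),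
      (P (n + 1) M (n + 1) D).mulVec (vec F) ⬝ᵥ (P (n + 1) M (n + 1) D).mulVec (vec F) =
        F.card := by
    intro F
    rw [Finset.sum_congr rfl fun D _ => (quad_P' hM le_rfl D (vec F) (vec F)).symm,
      ← dotProduct_sum, sum_P_mulVec hM le_rfl, JM.vec_dot]
  -- upper bound of the form on pairs
  have hS1 : qf (n + 1) M a (vec A) (vec B) ≤ -(q / m.factorial * ((A.card : ℝ) * B.card)) := by
    have h := qf_weights (M := M) a (vec A) (vec B) (vec_nonneg _) (vec_nonneg _) 0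
      (q / m.factorial) (fun σ τ hσ hτ => entry_le hM hs hs1 a 0 q h1 h2
        (hAB _ (mem_of_vec hσ) _ (mem_of_vec hτ)))
    rw [sum_vec, sum_vec] at h
    linarith
  have key : ∀ x y : ℝ, 0 ≤ x → 0 ≤ y → -(2 * (x * y) * qf (n + 1) M a (vec A) (vec B)) ≤
      c * (x ^ 2 * A.card + y ^ 2 * B.card) := by
    intro x y hx hy
    rw [← hN A, ← hN B, qf_eq hM, Finset.mul_sum, Finset.mul_sum, Finset.mul_sum,
      ← Finset.sum_add_distrib, Finset.mul_sum, ← Finset.sum_neg_distrib]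
    refine Finset.sum_le_sum fun D hD => ?_
    simp only [dotProduct]
    rw [Finset.mul_sum, Finset.mul_sum, Finset.mul_sum, Finset.mul_sum, ← Finset.sum_add_distrib,
      Finset.mul_sum, ← Finset.sum_neg_distrib]
    refine Finset.sum_le_sum fun σ _ => ?_
    obtain ⟨u, hu⟩ : ∃ u, u = (P (n + 1) M (n + 1) D).mulVec (vec A) σ := ⟨_, rfl⟩
    obtain ⟨w, hw⟩ : ∃ w, w = (P (n + 1) M (n + 1) D).mulVec (vec B) σ := ⟨_, rfl⟩
    rw [← hu, ← hw]
    have hv := abs_le.1 (h3 D hD)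
    have h5 : 0 ≤ (c + a D) * (x * u + y * w) ^ 2 := mul_nonneg (by linarith) (sq_nonneg _)
    have h6 : 0 ≤ (c - a D) * (x * u - y * w) ^ 2 := mul_nonneg (by linarith) (sq_nonneg _)
    nlinarith
  have hk := key (Real.sqrt B.card) (Real.sqrt A.card) (Real.sqrt_nonneg _) (Real.sqrt_nonneg _)
  rw [Real.sq_sqrt hb.le, Real.sq_sqrt ha.le] at hk
  obtain ⟨z, hz⟩ : ∃ z, z = Real.sqrt B.card * Real.sqrt A.card := ⟨_, rfl⟩
  rw [← hz] at hk
  have hz0 : 0 < z := by rw [hz]; exact mul_pos (Real.sqrt_pos.2 hb) (Real.sqrt_pos.2 ha)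
  have hz2 : z ^ 2 = A.card * B.card := by
    rw [hz, mul_pow, Real.sq_sqrt hb.le, Real.sq_sqrt ha.le, mul_comm]
  have e3 : (B.card : ℝ) * A.card = z ^ 2 := by rw [hz2]; ring
  rw [e3, ← hz2] at hk
  rw [← hz2] at hS1
  have h7 : 2 * z * (q / m.factorial * z ^ 2) ≤ c * (z ^ 2 + z ^ 2) := by
    refine le_trans ?_ hk
    have := mul_le_mul_of_nonneg_left hS1 (by positivity : 0 ≤ 2 * z)
    linarith
  have h8 : z ^ 2 * (q / m.factorial * z) ≤ z ^ 2 * c := by nlinarith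
  have h9 : q / m.factorial * z ≤ c := le_of_mul_le_mul_left h8 (by positivity)
  rw [div_mul_eq_mul_div, div_le_iff₀ hf] at h9
  have h10 : z ≤ c / q * m.factorial := by
    rw [div_mul_eq_mul_div, le_div_iff₀ hq]
    linarith
  rw [← hz2]
  exact pow_le_pow_left₀ hz0.le h10 2

/-! ### from one-bead sources -/

/-- **`SB` from a one-bead source**: `0 ≤ c0 + HI` off the rare set -/
theorem SB_of_HI {n m s Q p1 : ℕ} (hN : n + 1 = m + s) (hs1 : 1 ≤ s) (hm : 2 ≤ m) (hQ : 2 ≤ Q)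
    (v : ℕ → ℕ → ℝ) (τ c0 : ℝ) (hv : ∀ q p, p1 ≤ p → v q p = 0)
    (h0 : ∑ p ∈ range p1, v 0 p * OB.r1 m p = 0) (hc0 : 0 ≤ c0) (c1 : ℝ)
    (hc1 : c1 < -OB.sv m p1 (v 1))
    (H : ∃ K₀ : ℕ, ∀ K, K₀ ≤ K → n + 1 < K → ∃ (R : Finset ℕ → Prop) (_ : DecidablePred R),
      (∀ B ∈ Lv K (n + 1), ¬ R B → 0 ≤ c0 + OB.HI K m s Q v τ B) ∧
      rloss K m (n + 1) R (fun B => c0 + OB.HI K m s Q v τ B) ≤ c1) :
    SB (n + 1) s (c0 / (-OB.sv m p1 (v 1) - c1) * m.factorial) := by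
  obtain ⟨q, hq⟩ : ∃ q, q = -OB.sv m p1 (v 1) - c1 := ⟨_, rfl⟩
  rw [← hq]
  have hq0 : 0 < q := by linarith
  have hf : (0 : ℝ) < m.factorial := by exact_mod_cast m.factorial_pos
  have hf1 : (1 : ℝ) ≤ m.factorial := by exact_mod_cast m.factorial_pos
  -- for every `δ < q`
  have step : ∀ δ : ℝ, 0 < δ → δ < q → SB (n + 1) s (c0 / (q - δ) * m.factorial) := by
    intro δ hδ hδq
    obtain ⟨K₀, hK₀⟩ := H
    obtain ⟨ε, hε⟩ : ∃ ε : ℝ, ε = δ / (2 * m.factorial) := ⟨_, rfl⟩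
    have hε0 : 0 < ε := by rw [hε]; positivity
    have hε1 : m.factorial * ε = δ / 2 := by
      rw [hε, mul_div_assoc', div_eq_div_iff (by positivity) (by norm_num)]
      ring
    have hε2 : ε ≤ δ / 2 := by
      rw [← hε1]
      exact le_mul_of_one_le_left hε0.le hf1
    obtain ⟨K1, h1⟩ := OB.source_inf (m := m) (t := s) hm hQ v τ c0 hv h0 hε0
    obtain ⟨K, hK⟩ : ∃ K, K = max (max K₀ K1) (n + 2) := ⟨_, rfl⟩
    obtain ⟨R, hR, hpos, r1⟩ := hK₀ K (by omega) (by omega)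
    obtain ⟨a0, x1, x2, x3⟩ := h1 K (by omega)
    rw [← hN] at x1 x3
    have x4 := x2 (n + 1) (by omega) (by omega)
    have l1 := (loss_cut (by omega) x3 R).trans (add_le_add le_rfl r1)
    obtain ⟨a', a1, a2, a3⟩ := override (N := n + 1) (by omega) (by omega) le_rfl a0
      (fun C => (if R C then 0 else c0 + OB.HI K m s Q v τ C) - a0 C) c0 _ x1 x4
    have hval : Val (n + 1) K m a' c0 (q - δ) := by
      refine val_mono a3 le_rfl ?_
      have l2 : m.factorial * ∑ B ∈ Lv K (n + 1),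
          |(if R B then 0 else c0 + OB.HI K m s Q v τ B) - a0 B| *
            (((n + 1).factorial : ℝ) * ex B ^ 2) ≤ m.factorial * ε + c1 := l1
      linarith
    refine SB_of (by omega) hN hs1 a' c0 (q - δ) hc0 (by linarith) a2 hval fun B hB => ?_
    rw [a1 B hB]
    by_cases h : R B
    · rw [if_pos h]
      simp
    · rw [if_neg h]
      have := hpos B hB h
      linarith
  intro B hB
  by_contra hcon
  rw [not_le] at hcon
  -- continuity
  have hcont : Filter.Tendsto (fun δ : ℝ => c0 / (q - δ) * m.factorial) (nhdsWithin 0 (Set.Ioi 0))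
      (nhds (c0 / (q - 0) * m.factorial)) := by
    refine Filter.Tendsto.mono_left ?_ nhdsWithin_le_nhds
    have : ContinuousAt (fun δ : ℝ => c0 / (q - δ) * m.factorial) 0 := by
      refine ContinuousAt.mul (ContinuousAt.div continuousAt_const
        (continuousAt_const.sub continuousAt_id) ?_) continuousAt_const
      simpa using hq0.ne'
    exact this
  rw [sub_zero] at hcont
  have e1 := hcont.eventually (gt_mem_nhds hcon)
  have e2 : ∀ᶠ δ : ℝ in nhdsWithin 0 (Set.Ioi 0), δ ∈ Set.Ioo (0 : ℝ) q :=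
    Ioo_mem_nhdsGT hq0
  obtain ⟨δ, hδ1, hδ2⟩ := (e1.and e2).exists
  have := step δ hδ2.1 hδ2.2 B hB
  linarith

/-- a limit `δ → 0` -/
theorem le_of_lim {x c q : ℝ} (f : ℝ → ℝ) (hf : ContinuousAt f 0) (hq : 0 < q)
    (h : ∀ δ : ℝ, 0 < δ → δ < q → x ≤ f δ) (hc : f 0 = c) : x ≤ c := by
  by_contra hcon
  rw [not_le] at hcon
  have hcont : Filter.Tendsto f (nhdsWithin 0 (Set.Ioi 0)) (nhds (f 0)) :=
    Filter.Tendsto.mono_left hf nhdsWithin_le_nhds
  rw [hc] at hcont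
  have e1 := hcont.eventually (gt_mem_nhds hcon)
  have e2 : ∀ᶠ δ : ℝ in nhdsWithin 0 (Set.Ioi 0), δ ∈ Set.Ioo (0 : ℝ) q := Ioo_mem_nhdsGT hq
  obtain ⟨δ, hδ1, hδ2⟩ := (e1.and e2).exists
  have := h δ hδ2.1 hδ2.2
  linarith

/-- **`CB` from a one-bead source**: `|c0 + HI| ≤ c` off the rare set, `c0 ≤ 0` -/
theorem CB_of_HI {n m s Q p1 : ℕ} (hN : n + 1 = m + s) (hs1 : 1 ≤ s) (hm : 2 ≤ m) (hQ : 2 ≤ Q)
    (v : ℕ → ℕ → ℝ) (τ c0 : ℝ) (hv : ∀ q p, p1 ≤ p → v q p = 0)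
    (h0 : ∑ p ∈ range p1, v 0 p * OB.r1 m p = 0) (hc0 : c0 ≤ 0) (c c1 : ℝ) (hc : 0 ≤ c)
    (hc1 : c1 < -OB.sv m p1 (v 1))
    (H : ∃ K₀ : ℕ, ∀ K, K₀ ≤ K → n + 1 < K → ∃ (R : Finset ℕ → Prop) (_ : DecidablePred R),
      (∀ B ∈ Lv K (n + 1), ¬ R B → |c0 + OB.HI K m s Q v τ B| ≤ c) ∧
      rloss K m (n + 1) R (fun B => c0 + OB.HI K m s Q v τ B) ≤ c1) :
    CB (n + 1) s ((c / (-OB.sv m p1 (v 1) - c1) * m.factorial) ^ 2) := by
  obtain ⟨q, hq⟩ : ∃ q, q = -OB.sv m p1 (v 1) - c1 := ⟨_, rfl⟩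
  rw [← hq]
  have hq0 : 0 < q := by linarith
  have hf : (0 : ℝ) < m.factorial := by exact_mod_cast m.factorial_pos
  have hf1 : (1 : ℝ) ≤ m.factorial := by exact_mod_cast m.factorial_pos
  have step : ∀ δ : ℝ, 0 < δ → δ < q → CB (n + 1) s ((c / (q - δ) * m.factorial) ^ 2) := by
    intro δ hδ hδq
    obtain ⟨K₀, hK₀⟩ := H
    obtain ⟨ε, hε⟩ : ∃ ε : ℝ, ε = δ / (2 * m.factorial) := ⟨_, rfl⟩
    have hε0 : 0 < ε := by rw [hε]; positivity
    have hε1 : m.factorial * ε = δ / 2 := by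
      rw [hε, mul_div_assoc', div_eq_div_iff (by positivity) (by norm_num)]
      ring
    have hε2 : ε ≤ δ / 2 := by
      rw [← hε1]
      exact le_mul_of_one_le_left hε0.le hf1
    obtain ⟨K1, h1⟩ := OB.source_inf (m := m) (t := s) hm hQ v τ c0 hv h0 hε0
    obtain ⟨K, hK⟩ : ∃ K, K = max (max K₀ K1) (n + 2) := ⟨_, rfl⟩
    obtain ⟨R, hR, hpos, r1⟩ := hK₀ K (by omega) (by omega)
    obtain ⟨a0, x1, x2, x3⟩ := h1 K (by omega)
    rw [← hN] at x1 x3
    have x4 := x2 (n + 1) (by omega) (by omega)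
    have l1 := (loss_cut (by omega) x3 R).trans (add_le_add le_rfl r1)
    obtain ⟨a', a1, a2, a3⟩ := override (N := n + 1) (by omega) (by omega) le_rfl a0
      (fun C => (if R C then 0 else c0 + OB.HI K m s Q v τ C) - a0 C) c0 _ x1 x4
    have hval : Val (n + 1) K m a' 0 (q - δ) := by
      refine val_mono a3 hc0 ?_
      have l2 : m.factorial * ∑ B ∈ Lv K (n + 1),
          |(if R B then 0 else c0 + OB.HI K m s Q v τ B) - a0 B| *
            (((n + 1).factorial : ℝ) * ex B ^ 2) ≤ m.factorial * ε + c1 := l1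
      linarith
    refine cross_val (by omega) hN hs1 a' c (q - δ) (by linarith) a2 hval fun B hB => ?_
    rw [a1 B hB]
    by_cases h : R B
    · rw [if_pos h]
      simpa using hc
    · rw [if_neg h]
      have e : a0 B + (c0 + OB.HI K m s Q v τ B - a0 B) = c0 + OB.HI K m s Q v τ B := by ring
      rw [e]
      exact hpos B hB h
  intro A B hAB
  refine le_of_lim (fun δ => (c / (q - δ) * m.factorial) ^ 2) ?_ hq0
    (fun δ h1 h2 => step δ h1 h2 A B hAB) (by simp only [sub_zero])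
  refine ContinuousAt.pow (ContinuousAt.mul (ContinuousAt.div continuousAt_const
    (continuousAt_const.sub continuousAt_id) ?_) continuousAt_const) 2
  simpa using hq0.ne'

/-! ### exclusion with a general e-term -/

variable {n k t : ℕ}

/-- **Exclusion of an interval of densities, general e-term** (helper3's `TC.excl` with the bound of the fibres with
more than `k` marks as a hypothesis) -/
theorem TC.excl_gen (hN : n + 1 = k + t) {W1 s11 s12 W2 s22 θ e l r r' : ℝ}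
    (h : TC n k t W1 s11 s12 W2 s22)
    (hE : ∀ A : Finset (Perm (Fin (n + 1 + 1))), (∀ σ ∈ A, ∀ τ ∈ A, t ≤ ag σ τ) →
      θ * ((k + 1).factorial : ℝ) ≤ A.card → l * A.card ≤ ((Qs A).card : ℝ) →
      t * ((Bp k (Ws A)).card : ℝ) ≤ e * A.card)
    (hθ : 0 < θ) (he1 : e < 1) (hl0 : 0 < l) (hr0 : 0 ≤ r') (hrr : r ≤ r' * (1 - e))
    (hW1 : 0 ≤ W1) (hW2 : 0 ≤ W2) (hconc : s11 + s22 ≤ 2 * s12)
    (hl : W1 * l + W2 * (1 - l) <
      θ * (1 - e) * (s11 * l ^ 2 + 2 * s12 * l * (1 - l) + s22 * (1 - l) ^ 2))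
    (hr : W1 * r' + W2 * (1 - r') <
      θ * (1 - e) * (s11 * r' ^ 2 + 2 * s12 * r' * (1 - r') + s22 * (1 - r') ^ 2)) :
    Excl (n + 1 + 1) t θ l r := by
  intro A hA hc x y ⟨h1, h2⟩
  have hFp : (0 : ℝ) < ((k + 1).factorial : ℝ) := fac_pos (k + 1)
  obtain ⟨A', hA1, hA2, hA3⟩ := exists_move A x y
  have hA4 : ∀ σ ∈ A', ∀ τ ∈ A', t ≤ ag σ τ := hA3 t hA
  rw [show n + 1 + 1 - t = k + 1 by omega] at hc
  have e0 : ((Pool.EG.thr A x y).card : ℝ) = ((Qs A').card : ℝ) := by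
    rw [hA2]
    rfl
  rw [e0] at h1 h2
  have hT := h A' hA4
  have u1 := card_off hN A'
  have u2 := off_le (k := k) A'
  have htB := hE A' hA4 (by rw [hA1]; exact hc) (by rw [hA1]; exact h1)
  rw [hA1] at u1 u2 htB
  have u1' : (A.card : ℝ) ≤ ((Qs A').card : ℝ) + ((off k A' : ℝ) + t * ((Bp k (Ws A')).card : ℝ)) := by
    exact_mod_cast u1
  have u2' : ((Qs A').card : ℝ) + (off k A' : ℝ) ≤ (A.card : ℝ) := by exact_mod_cast u2
  have hY0 : (0 : ℝ) ≤ (off k A' : ℝ) := Nat.cast_nonneg _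
  obtain ⟨X, hX⟩ : ∃ X : ℝ, X = ((Qs A').card : ℝ) := ⟨_, rfl⟩
  obtain ⟨Y, hY⟩ : ∃ Y : ℝ, Y = (off k A' : ℝ) := ⟨_, rfl⟩
  obtain ⟨S, hS⟩ : ∃ S : ℝ, S = (A.card : ℝ) := ⟨_, rfl⟩
  obtain ⟨D, hD⟩ : ∃ D : ℝ, D = ((Bp k (Ws A')).card : ℝ) := ⟨_, rfl⟩
  obtain ⟨F, hF⟩ : ∃ F : ℝ, F = ((k + 1).factorial : ℝ) := ⟨_, rfl⟩
  rw [← hX, ← hY, ← hF] at hT
  rw [← hX, ← hY, ← hS, ← hD] at u1'
  rw [← hX, ← hY, ← hS] at u2'
  rw [← hD, ← hS] at htB
  rw [← hX, ← hS] at h1 h2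
  rw [← hF, ← hS] at hc
  rw [← hY] at hY0
  rw [← hF] at hFp
  clear hX hY hS hD hF e0
  have hS0 : 0 < S := lt_of_lt_of_le (mul_pos hθ hFp) hc
  have hX0 : 0 < X := lt_of_lt_of_le (mul_pos hl0 hS0) h1
  have hT1 : (1 - e) * S ≤ X + Y := by linarith
  have he2 : 0 < 1 - e := by linarith
  have hT0 : 0 < X + Y := lt_of_lt_of_le (mul_pos he2 hS0) hT1
  obtain ⟨T, hTd⟩ : ∃ T : ℝ, T = X + Y := ⟨_, rfl⟩
  obtain ⟨p, hp⟩ : ∃ p : ℝ, p = X / T := ⟨_, rfl⟩
  rw [← hTd] at hT1 hT0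
  have hXp : X = p * T := by rw [hp, div_mul_cancel₀ _ hT0.ne']
  have hYp : Y = (1 - p) * T := by
    have : Y = T - X := by linarith
    rw [this, sub_mul, one_mul, ← hXp]
  have hlp : l ≤ p := by
    rw [hp, le_div_iff₀ hT0]
    have : l * T ≤ l * S := mul_le_mul_of_nonneg_left (by linarith) hl0.le
    linarith
  have hpr : p ≤ r' := by
    rw [hp, div_le_iff₀ hT0]
    calc X ≤ r * S := h2
      _ ≤ r' * (1 - e) * S := mul_le_mul_of_nonneg_right hrr hS0.le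
      _ = r' * ((1 - e) * S) := by ring
      _ ≤ r' * T := mul_le_mul_of_nonneg_left hT1 hr0
  have hmain := interval (mul_nonneg hθ.le he2.le) hconc hlp hpr hl hr
  obtain ⟨q, hq⟩ : ∃ q : ℝ, q = s11 * p ^ 2 + 2 * s12 * p * (1 - p) + s22 * (1 - p) ^ 2 := ⟨_, rfl⟩
  obtain ⟨L, hL⟩ : ∃ L : ℝ, L = W1 * p + W2 * (1 - p) := ⟨_, rfl⟩
  rw [← hq, ← hL] at hmain
  have hp0 : 0 ≤ p := hl0.le.trans hlp
  have hp1 : 0 ≤ 1 - p := by
    have : 0 ≤ (1 - p) * T := by rw [← hYp]; exact hY0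
    by_contra hneg
    have := mul_neg_of_neg_of_pos (not_le.1 hneg) hT0
    linarith
  have hL0 : 0 ≤ L := by
    rw [hL]
    exact add_nonneg (mul_nonneg hW1 hp0) (mul_nonneg hW2 hp1)
  have hq0 : 0 < q := by
    by_contra hneg
    have := mul_nonpos_of_nonneg_of_nonpos (mul_nonneg hθ.le he2.le) (not_lt.1 hneg)
    linarith
  have e2 : W1 * X + W2 * Y = T * L := by rw [hXp, hYp, hL]; ring
  have e3 : s11 * X ^ 2 + 2 * s12 * X * Y + s22 * Y ^ 2 = T * (T * q) := by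
    rw [hXp, hYp, hq]; ring
  rw [e2, e3] at hT
  have k7 : T * (T * q) / F ≤ T * L := by linarith
  rw [div_le_iff₀ hFp] at k7
  have k8 : T * q ≤ L * F := by
    have : T * (T * q) ≤ T * (L * F) := by
      calc T * (T * q) ≤ T * L * F := k7
        _ = _ := by ring
    exact le_of_mul_le_mul_left this hT0
  have k9 : θ * (1 - e) * F * q ≤ T * q := by
    refine mul_le_mul_of_nonneg_right ?_ hq0.le
    calc θ * (1 - e) * F = (1 - e) * (θ * F) := by ring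
      _ ≤ (1 - e) * S := mul_le_mul_of_nonneg_left hc he2.le
      _ ≤ T := hT1
  have k10 : L * F < θ * (1 - e) * q * F := mul_lt_mul_of_pos_right hmain hFp
  have k11 : θ * (1 - e) * q * F = θ * (1 - e) * F * q := by ring
  linarith

/-- the e-term from `SB`: `t |B_p| ≤ e |A|` -/
theorem hE_of_SB (hN : n + 1 = k + t) (hk : 2 ≤ k) {θ e c2 l : ℝ} (he0 : 0 ≤ e)
    (hS : SB (n + 1) (t + 2) (c2 * ((k - 2).factorial : ℝ)))
    (hte : t * c2 ≤ e * (θ * ((k + 1) * (k * (k - 1))))) :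
    ∀ A : Finset (Perm (Fin (n + 1 + 1))), (∀ σ ∈ A, ∀ τ ∈ A, t ≤ ag σ τ) →
      θ * ((k + 1).factorial : ℝ) ≤ A.card → l * A.card ≤ ((Qs A).card : ℝ) →
      t * ((Bp k (Ws A)).card : ℝ) ≤ e * A.card := by
  intro A hA hc _
  have h1 := hS (Bp k (Ws A)) fun σ hσ τ hτ =>
    self_big2 (fib A hA) hN hk (mem_filter.1 hσ).2 (mem_filter.1 hτ).2
  have hf : (((k + 1).factorial : ℕ) : ℝ) =
      ((k : ℝ) + 1) * (k * (k - 1)) * ((k - 2).factorial : ℝ) := by
    obtain ⟨j, rfl⟩ : ∃ j, k = j + 2 := ⟨k - 2, by omega⟩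
    rw [Nat.add_sub_cancel, Nat.factorial_succ, Nat.factorial_succ, Nat.factorial_succ]
    push_cast
    ring
  have hg : (0 : ℝ) < ((k - 2).factorial : ℝ) := fac_pos (k - 2)
  rw [hf] at hc
  calc t * ((Bp k (Ws A)).card : ℝ) ≤ t * (c2 * ((k - 2).factorial : ℝ)) :=
        mul_le_mul_of_nonneg_left h1 (Nat.cast_nonneg t)
    _ = t * c2 * ((k - 2).factorial : ℝ) := by ring
    _ ≤ e * (θ * ((k + 1) * (k * (k - 1)))) * ((k - 2).factorial : ℝ) :=
        mul_le_mul_of_nonneg_right hte hg.le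
    _ = e * (θ * (((k : ℝ) + 1) * (k * (k - 1)) * ((k - 2).factorial : ℝ))) := by ring
    _ ≤ e * A.card := mul_le_mul_of_nonneg_left hc he0

/-- **Exclusion of an interval of densities, e-term from a ratio bound of level `k - 2`** -/
theorem TC.excl2 (hN : n + 1 = k + t) (hk : 2 ≤ k) {W1 s11 s12 W2 s22 θ e c2 l r r' : ℝ}
    (h : TC n k t W1 s11 s12 W2 s22) (hS : SB (n + 1) (t + 2) (c2 * ((k - 2).factorial : ℝ)))
    (hθ : 0 < θ) (he0 : 0 ≤ e) (he1 : e < 1) (hl0 : 0 < l) (hr0 : 0 ≤ r')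
    (hrr : r ≤ r' * (1 - e)) (hte : t * c2 ≤ e * (θ * ((k + 1) * (k * (k - 1)))))
    (hW1 : 0 ≤ W1) (hW2 : 0 ≤ W2) (hconc : s11 + s22 ≤ 2 * s12)
    (hl : W1 * l + W2 * (1 - l) <
      θ * (1 - e) * (s11 * l ^ 2 + 2 * s12 * l * (1 - l) + s22 * (1 - l) ^ 2))
    (hr : W1 * r' + W2 * (1 - r') <
      θ * (1 - e) * (s11 * r' ^ 2 + 2 * s12 * r' * (1 - r') + s22 * (1 - r') ^ 2)) :
    Excl (n + 1 + 1) t θ l r :=
  TC.excl_gen hN h (hE_of_SB hN hk he0 hS hte) hθ he1 hl0 hr0 hrr hW1 hW2 hconc hl hr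

end Pool.TW
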