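import Pool.Agent.Work.MP_46fa68_47.Src3

/-!
# MP_46fa68_co: the kernel of a one-bead function per layer

`kl t Q v τ j p`: weight of the displacement `p` of a bead of the layer `j` (position `M0 - j`, `j : ℤ`,
beads at or beyond the wall have `j ≤ 0`).
-/

set_option autoImplicit false

open Finset Equiv

namespace Pool.OB

open Pool.JM

/-- source at the distance `i` above the bead: weight of the additional displacement `a` -/
noncomputable def wq (t i a : ℕ) : ℝ := (-1) ^ i * ((t + a - 1).choose a : ℝ) * (a.choose i : ℝ)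

/-- tail beginning at the distance `i` above the bead -/
noncomputable def wt (t i p : ℕ) : ℝ :=
  if i = 0 then (if p = 0 then 1 else 0)
  else (-1) ^ i * ((t + p - 1).choose p : ℝ) * (if p = 0 then 0 else ((p - 1).choose (i - 1) : ℝ))

/-- **the kernel per layer** -/
noncomputable def kl (t Q : ℕ) (v : ℕ → ℕ → ℝ) (τ : ℝ) (j : ℤ) (p : ℕ) : ℝ :=
  (∑ q ∈ range Q, if 0 ≤ (q : ℤ) - 1 + j then
    ∑ a ∈ range (p + 1), wq t ((q : ℤ) - 1 + j).toNat a * v q (p - a) else 0) +
  τ * wt t ((Q : ℤ) - 1 + j).toNat p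

theorem sgn_two (i : ℕ) : ((-1 : ℝ)) ^ i * (-1) ^ i = 1 := by
  rw [← mul_pow]; norm_num

theorem kx_wq {M0 t x p : ℕ} (v : ℕ → ℝ) (h : x < M0) :
    kx M0 v (bi t) x p = ∑ a ∈ range (p + 1), wq t (M0 - 1 - x) a * v (p - a) := by
  unfold kx
  rw [if_pos h]
  refine sum_congr rfl fun a _ => ?_
  unfold bi wq
  rw [pow_add]
  have h1 := sgn_two a
  linear_combination ((t + a - 1).choose a : ℝ) * (-1) ^ (M0 - 1 - x) *
    (a.choose (M0 - 1 - x) : ℝ) * v (p - a) * h1

theorem kx_out {M0 t x p : ℕ} (v : ℕ → ℝ) (h : M0 ≤ x) : kx M0 v (bi t) x p = 0 := by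
  unfold kx
  rw [if_neg (by omega)]

theorem kc_wt (M0 t x p : ℕ) : kc M0 (bi t) x p = wt t (M0 - x) p := by
  unfold kc kp wt
  by_cases hx : M0 ≤ x
  · rw [if_pos (by omega : M0 - x = 0)]
    by_cases hp : p = 0
    · subst hp
      rw [if_pos rfl, if_pos rfl, if_pos hx]
      unfold bi
      simp
    · rw [if_neg hp, if_neg hp, if_neg (by omega)]
      ring
  · rw [if_neg (by omega : ¬ M0 - x = 0)]
    by_cases hp : p = 0
    · subst hp
      rw [if_pos rfl, if_neg hx, if_pos rfl]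
      ring
    · rw [if_neg hp, if_neg hp, if_pos (by omega : x < M0)]
      unfold bi
      rw [pow_add]
      have h1 := sgn_two p
      linear_combination ((t + p - 1).choose p : ℝ) * (-1) ^ (M0 - x) *
        ((p - 1).choose (M0 - x - 1) : ℝ) * h1

/-- **the kernel per layer.** -/
theorem ks_kl {M0 Q : ℕ} (hM : 1 ≤ M0) (hQ : 1 ≤ Q) (t : ℕ) (v : ℕ → ℕ → ℝ) (τ : ℝ) (x p : ℕ) :
    ks M0 Q v τ (bi t) x p = kl t Q v τ ((M0 : ℤ) - x) p := by
  unfold ks kl
  congr 1
  · refine sum_congr rfl fun q _ => ?_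
    split_ifs with h
    · rw [kx_wq _ (by omega), show M0 + q - 1 - x = ((q : ℤ) - 1 + ((M0 : ℤ) - x)).toNat by omega]
    · exact kx_out _ (by omega)
  · rw [kc_wt, show M0 + Q - 1 - x = ((Q : ℤ) - 1 + ((M0 : ℤ) - x)).toNat by omega]

theorem wq_zero {t i a : ℕ} (h : a < i) : wq t i a = 0 := by
  unfold wq
  rw [Nat.choose_eq_zero_of_lt h]
  simp

theorem wt_zero {t i p : ℕ} (h : p < i) : wt t i p = 0 := by
  unfold wt
  rw [if_neg (by omega : ¬ i = 0)]
  by_cases hp : p = 0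
  · rw [if_pos hp, mul_zero]
  · rw [if_neg hp, Nat.choose_eq_zero_of_lt (by omega : p - 1 < i - 1)]
    simp

/-- sources with the displacements `0` and `1` only -/
theorem inner_two (t i : ℕ) (v : ℕ → ℝ) (hv : ∀ p, 2 ≤ p → v p = 0) (p : ℕ) :
    ∑ a ∈ range (p + 1), wq t i a * v (p - a) =
      wq t i p * v 0 + if p = 0 then 0 else wq t i (p - 1) * v 1 := by
  cases p with
  | zero => simp
  | succ p =>
    rw [sum_range_succ, sum_range_succ, if_neg (Nat.succ_ne_zero p), Nat.sub_self,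
      Nat.add_sub_cancel, show p + 1 - p = 1 by omega]
    have h0 : ∑ a ∈ range p, wq t i a * v (p + 1 - a) = 0 := by
      refine sum_eq_zero fun a ha => ?_
      rw [mem_range] at ha
      rw [hv _ (by omega), mul_zero]
    rw [h0]
    ring

/-- one row of the top level sum, with the layers -/
theorem Hs_top_kl {K A m t Q : ℕ} (hm : 1 ≤ m) (hQ : 1 ≤ Q) (v : ℕ → ℕ → ℝ) (τ : ℝ)
    {B : Finset ℕ} (hB : B ∈ Lv K (m + t)) :
    Hs K A m t Q v τ B =
      ∑ x ∈ B, ∑ p ∈ range (A + 1), kl t Q v τ (((K - 1 + m : ℕ) : ℤ) - x) p * Rr B x p := by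
  rw [Hs_top v τ hB]
  refine sum_congr rfl fun x _ => sum_congr rfl fun p _ => ?_
  rw [ks_kl (by omega) hQ]

end Pool.OB
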