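import Pool.Agent.Work.MP_46fa68_h3.Two
import Pool.Agent.Work.MP_46fa68_14.Rare3
import Pool.Agent.Work.MP_46fa68_47.Inf

/-!
# MP_46fa68_co: the pair form with overrides, its limit form and the pair form from one-bead sources

`two_class` (helper3) with functions `a`, `b`, `c` which are ARBITRARY on the top level and only close in the mean
(Plancherel weights) to harmonic functions with values `Val`; then the limit `δ → 0`; then the source lemma.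
-/

set_option autoImplicit false

open Finset Equiv

namespace Pool.TW

open Pool.JM Pool.OS Pool.JM.Rare

variable {n k t : ℕ}

/-- **The two-class certificate with overrides.** -/
theorem two_class_rare {M : ℕ} (hN : n + 1 = k + t) (hk : k + 1 ≤ n) (hk1 : 1 ≤ k)
    (hM : n + 1 < M) (a0 b0 c0 a b c : Finset ℕ → ℝ) (W1 s11 q0 s12 r0 s22 c1 c2 c3 : ℝ)
    (ha1 : Harm M (k + 1) (n + 1) a0) (ha2 : Val (n + 1) M (k + 1) a0 W1 s11)
    (hb1 : Harm M k (n + 1) b0) (hb2 : Val (n + 1) M k b0 q0 s12) (hq0 : 0 ≤ q0)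
    (hc1 : Harm M (k + 1) (n + 1) c0) (hc2 : Val (n + 1) M (k + 1) c0 r0 s22) (hr0 : 0 ≤ r0)
    (l1 : loss M (k + 1) (n + 1) a0 a ≤ c1) (l2 : loss M k (n + 1) b0 b ≤ c2)
    (l3 : loss M (k + 1) (n + 1) c0 c ≤ c3)
    (ha : ∀ B ∈ Lv M (n + 1), 0 ≤ a B) (hc : ∀ B ∈ Lv M (n + 1), 0 ≤ c B)
    (hab : ∀ B ∈ Lv M (n + 1), b B ^ 2 ≤ a B * c B) :
    TC n k t W1 (s11 - c1) ((s12 - c2) * (k + 1) / k) ((r0 + 2 * q0) / k)
      ((s22 - c3) / k ^ 2) := by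
  obtain ⟨a', a1, a2, a3⟩ := override (N := n + 1) (by omega) (by omega) le_rfl a0
    (fun C => a C - a0 C) W1 s11 ha1 ha2
  obtain ⟨b', b1, b2, b3⟩ := override (N := n + 1) (by omega) (by omega) le_rfl b0
    (fun C => b C - b0 C) q0 s12 hb1 hb2
  obtain ⟨c', d1, d2, d3⟩ := override (N := n + 1) (by omega) (by omega) le_rfl c0
    (fun C => c C - c0 C) r0 s22 hc1 hc2
  have ea : ∀ B ∈ Lv M (n + 1), a' B = a B := fun B hB => by rw [a1 B hB]; ring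
  have eb : ∀ B ∈ Lv M (n + 1), b' B = b B := fun B hB => by rw [b1 B hB]; ring
  have ed : ∀ B ∈ Lv M (n + 1), c' B = c B := fun B hB => by rw [d1 B hB]; ring
  refine two_class hN hk hk1 hM a' b' c' W1 (s11 - c1) q0 (s12 - c2) r0 (s22 - c3)
    a2 (val_mono a3 le_rfl ?_) b2 (val_mono b3 le_rfl ?_) hq0 d2 (val_mono d3 le_rfl ?_) hr0
    (fun B hB => by rw [ea B hB]; exact ha B hB) (fun B hB => by rw [ed B hB]; exact hc B hB)
    (fun B hB => by rw [ea B hB, eb B hB, ed B hB]; exact hab B hB)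
  · exact sub_le_sub_left l1 _
  · exact sub_le_sub_left l2 _
  · exact sub_le_sub_left l3 _

/-- the data of a pair certificate up to `δ` -/
def PCert (n k : ℕ) (W1 s11 q0 s12 r0 s22 δ : ℝ) : Prop :=
  ∃ (M : ℕ) (a0 b0 c0 a b c : Finset ℕ → ℝ) (p1 p2 p3 c1 c2 c3 : ℝ),
    n + 1 < M ∧
    (Harm M (k + 1) (n + 1) a0 ∧ Val (n + 1) M (k + 1) a0 W1 p1) ∧
    (Harm M k (n + 1) b0 ∧ Val (n + 1) M k b0 q0 p2) ∧
    (Harm M (k + 1) (n + 1) c0 ∧ Val (n + 1) M (k + 1) c0 r0 p3) ∧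
    (loss M (k + 1) (n + 1) a0 a ≤ c1 ∧ loss M k (n + 1) b0 b ≤ c2 ∧
      loss M (k + 1) (n + 1) c0 c ≤ c3) ∧
    (s11 - δ ≤ p1 - c1 ∧ s12 - δ ≤ p2 - c2 ∧ s22 - δ ≤ p3 - c3) ∧
    (∀ B ∈ Lv M (n + 1), 0 ≤ a B) ∧ (∀ B ∈ Lv M (n + 1), 0 ≤ c B) ∧
    (∀ B ∈ Lv M (n + 1), b B ^ 2 ≤ a B * c B)

/-- **The pair certificate, limit form.** -/
theorem TC_lim (hN : n + 1 = k + t) (hk : k + 1 ≤ n) (hk1 : 1 ≤ k)
    {W1 s11 q0 s12 r0 s22 : ℝ} (hq0 : 0 ≤ q0) (hr0 : 0 ≤ r0)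
    (H : ∀ δ : ℝ, 0 < δ → PCert n k W1 s11 q0 s12 r0 s22 δ) :
    TC n k t W1 s11 (s12 * (k + 1) / k) ((r0 + 2 * q0) / k) (s22 / k ^ 2) := by
  intro A hA
  obtain ⟨X, hX⟩ : ∃ X : ℝ, X = ((Qs A).card : ℝ) := ⟨_, rfl⟩
  obtain ⟨Y, hY⟩ : ∃ Y : ℝ, Y = (off k A : ℝ) := ⟨_, rfl⟩
  obtain ⟨F, hF⟩ : ∃ F : ℝ, F = ((k + 1).factorial : ℝ) := ⟨_, rfl⟩
  rw [← hX, ← hY, ← hF]
  have hX0 : 0 ≤ X := by rw [hX]; exact Nat.cast_nonneg _
  have hY0 : 0 ≤ Y := by rw [hY]; exact Nat.cast_nonneg _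
  have hF0 : 0 < F := by rw [hF]; exact_mod_cast (k + 1).factorial_pos
  have hk0 : (0 : ℝ) < k := by exact_mod_cast (show 0 < k by omega)
  obtain ⟨Z, hZ⟩ : ∃ Z : ℝ, Z = (X ^ 2 + 2 * ((k + 1) / k) * X * Y + 1 / k ^ 2 * Y ^ 2) / F :=
    ⟨_, rfl⟩
  have hZ0 : 0 ≤ Z := by rw [hZ]; positivity
  have key : ∀ δ : ℝ, 0 < δ → 0 ≤ (W1 * X + (r0 + 2 * q0) / k * Y) -
      (s11 * X ^ 2 + 2 * (s12 * (k + 1) / k) * X * Y + s22 / k ^ 2 * Y ^ 2) / F + δ * Z := by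
    intro δ hδ
    obtain ⟨M, a0, b0, c0, a, b, c, p1, p2, p3, c1, c2, c3, hM, ⟨ha1, ha2⟩, ⟨hb1, hb2⟩,
      ⟨hc1, hc2⟩, ⟨l1, l2, l3⟩, ⟨e1, e2, e3⟩, ha, hc, hab⟩ := H δ hδ
    have h := two_class_rare hN hk hk1 hM a0 b0 c0 a b c W1 p1 q0 p2 r0 p3 c1 c2 c3 ha1 ha2
      hb1 hb2 hq0 hc1 hc2 hr0 l1 l2 l3 ha hc hab A hA
    rw [← hX, ← hY, ← hF] at h
    refine h.trans ?_
    have i1 : (s11 - δ) * X ^ 2 ≤ (p1 - c1) * X ^ 2 := mul_le_mul_of_nonneg_right e1 (sq_nonneg X)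
    have i2 : (s12 - δ) * (2 * ((k + 1) / k) * X * Y) ≤
        (p2 - c2) * (2 * ((k + 1) / k) * X * Y) := mul_le_mul_of_nonneg_right e2 (by positivity)
    have i3 : (s22 - δ) * (1 / k ^ 2 * Y ^ 2) ≤ (p3 - c3) * (1 / k ^ 2 * Y ^ 2) :=
      mul_le_mul_of_nonneg_right e3 (by positivity)
    have i4 : (s11 * X ^ 2 + 2 * (s12 * (k + 1) / k) * X * Y + s22 / k ^ 2 * Y ^ 2) -
        δ * (X ^ 2 + 2 * ((k + 1) / k) * X * Y + 1 / k ^ 2 * Y ^ 2) ≤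
        (p1 - c1) * X ^ 2 + 2 * ((p2 - c2) * (k + 1) / k) * X * Y + (p3 - c3) / k ^ 2 * Y ^ 2 := by
      have e4 : (s11 * X ^ 2 + 2 * (s12 * (k + 1) / k) * X * Y + s22 / k ^ 2 * Y ^ 2) -
          δ * (X ^ 2 + 2 * ((k + 1) / k) * X * Y + 1 / k ^ 2 * Y ^ 2) =
          (s11 - δ) * X ^ 2 + (s12 - δ) * (2 * ((k + 1) / k) * X * Y) +
            (s22 - δ) * (1 / k ^ 2 * Y ^ 2) := by ring
      have e5 : (p1 - c1) * X ^ 2 + 2 * ((p2 - c2) * (k + 1) / k) * X * Y +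
          (p3 - c3) / k ^ 2 * Y ^ 2 = (p1 - c1) * X ^ 2 +
            (p2 - c2) * (2 * ((k + 1) / k) * X * Y) + (p3 - c3) * (1 / k ^ 2 * Y ^ 2) := by ring
      rw [e4, e5]
      linarith
    have i5 := div_le_div_of_nonneg_right i4 hF0.le
    rw [sub_div, mul_div_assoc δ, ← hZ] at i5
    linarith
  by_contra hcon
  rw [not_le] at hcon
  obtain ⟨V, hV⟩ : ∃ V : ℝ, V = (W1 * X + (r0 + 2 * q0) / k * Y) -
      (s11 * X ^ 2 + 2 * (s12 * (k + 1) / k) * X * Y + s22 / k ^ 2 * Y ^ 2) / F := ⟨_, rfl⟩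
  rw [← hV] at hcon key
  have hd : 0 < -V / (2 * (Z + 1)) := div_pos (by linarith) (by linarith)
  have h := key _ hd
  have h1 : -V / (2 * (Z + 1)) * Z ≤ -V / 2 := by
    rw [div_mul_eq_mul_div, div_le_div_iff₀ (by linarith) (by norm_num)]
    nlinarith
  linarith

/-! ### from one-bead sources -/

/-- the part of the level on the set `R`, in units `m!`: `m! ∑_(B ∈ R) |F B| N! (ex B)^2` -/
noncomputable def rloss (K m N : ℕ) (R : Finset ℕ → Prop) [DecidablePred R]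
    (F : Finset ℕ → ℝ) : ℝ :=
  m.factorial * ∑ B ∈ (Lv K N).filter R, |F B| * ((N.factorial : ℝ) * ex B ^ 2)

/-- cut a function to `0` on `R`: total loss against a function which is `δ`-close to it -/
theorem loss_cut {K m N : ℕ} (hK : N < K) {a0 F : Finset ℕ → ℝ} {δ : ℝ}
    (h : ∀ B ∈ Lv K N, |a0 B - F B| ≤ δ) (R : Finset ℕ → Prop) [DecidablePred R] :
    loss K m N a0 (fun B => if R B then 0 else F B) ≤ m.factorial * δ + rloss K m N R F := by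
  refine (loss_trans K m N a0 F _).trans (add_le_add ?_ ?_)
  · refine loss_le_of_sup hK fun B hB => ?_
    rw [abs_sub_comm]
    exact h B hB
  · unfold loss rloss
    refine mul_le_mul_of_nonneg_left (le_of_eq ?_) (by positivity)
    rw [sum_filter]
    refine sum_congr rfl fun B hB => ?_
    by_cases h' : R B
    · simp only [if_pos h', zero_sub, abs_neg]
    · simp only [if_neg h', sub_self, abs_zero, zero_mul]

/-- **The two-class inequality from one-bead sources.**  `N = n + 1 = k + (s + 1)` boxes; `a`, `c` of level `k + 1`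
(lifted `s` times), `b` of level `k` (lifted `s + 1` times); `R` = the rare shapes. -/
theorem TC_of_HI {s Q p1 : ℕ} (hN : n + 1 = k + (s + 1)) (hk : k + 1 ≤ n) (hk2 : 2 ≤ k)
    (hQ : 2 ≤ Q) (va vb vc : ℕ → ℕ → ℝ) (τa τb τc ca cb cc : ℝ)
    (hva : ∀ q p, p1 ≤ p → va q p = 0) (hvb : ∀ q p, p1 ≤ p → vb q p = 0)
    (hvc : ∀ q p, p1 ≤ p → vc q p = 0)
    (h0a : ∑ p ∈ range p1, va 0 p * OB.r1 (k + 1) p = 0)
    (h0b : ∑ p ∈ range p1, vb 0 p * OB.r1 k p = 0)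
    (h0c : ∑ p ∈ range p1, vc 0 p * OB.r1 (k + 1) p = 0)
    (hcb : 0 ≤ cb) (hcc : 0 ≤ cc) (c1 c2 c3 : ℝ)
    (H : ∃ K₀ : ℕ, ∀ K, K₀ ≤ K → n + 1 < K → ∃ (R : Finset ℕ → Prop) (_ : DecidablePred R),
      (∀ B ∈ Lv K (n + 1), ¬ R B →
        0 ≤ ca + OB.HI K (k + 1) s Q va τa B ∧
        0 ≤ cc + OB.HI K (k + 1) s Q vc τc B ∧
        (cb + OB.HI K k (s + 1) Q vb τb B) ^ 2 ≤
          (ca + OB.HI K (k + 1) s Q va τa B) * (cc + OB.HI K (k + 1) s Q vc τc B)) ∧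
      rloss K (k + 1) (n + 1) R (fun B => ca + OB.HI K (k + 1) s Q va τa B) ≤ c1 ∧
      rloss K k (n + 1) R (fun B => cb + OB.HI K k (s + 1) Q vb τb B) ≤ c2 ∧
      rloss K (k + 1) (n + 1) R (fun B => cc + OB.HI K (k + 1) s Q vc τc B) ≤ c3) :
    TC n k (s + 1) ca (-OB.sv (k + 1) p1 (va 1) - c1)
      ((-OB.sv k p1 (vb 1) - c2) * (k + 1) / k) ((cc + 2 * cb) / k)
      ((-OB.sv (k + 1) p1 (vc 1) - c3) / k ^ 2) := by
  refine TC_lim hN hk (by omega) hcb hcc fun δ hδ => ?_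
  obtain ⟨K₀, hK₀⟩ := H
  have hf : (0 : ℝ) < (k + 1).factorial := by exact_mod_cast (k + 1).factorial_pos
  have hfk : (0 : ℝ) < k.factorial := by exact_mod_cast k.factorial_pos
  have hfk' : (k.factorial : ℝ) ≤ (k + 1).factorial := by
    exact_mod_cast Nat.factorial_le (Nat.le_succ k)
  have hf1 : (1 : ℝ) ≤ (k + 1).factorial := by exact_mod_cast (k + 1).factorial_pos
  obtain ⟨ε, hε⟩ : ∃ ε : ℝ, ε = δ / (2 * (k + 1).factorial) := ⟨_, rfl⟩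
  have hε0 : 0 < ε := by rw [hε]; positivity
  have hε1 : ε * (k + 1).factorial = δ / 2 := by
    rw [hε, div_mul_eq_mul_div, div_eq_div_iff (by positivity) (by norm_num)]
    ring
  have hε2 : ε ≤ δ / 2 := by
    rw [← hε1]
    exact le_mul_of_one_le_right hε0.le hf1
  have hε3 : k.factorial * ε ≤ δ / 2 := by
    rw [← hε1, mul_comm ε]
    exact mul_le_mul_of_nonneg_right hfk' hε0.le
  obtain ⟨K1, h1⟩ := OB.source_inf (m := k + 1) (t := s) (by omega) hQ va τa ca hva h0a hε0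
  obtain ⟨K2, h2⟩ := OB.source_inf (m := k) (t := s + 1) hk2 hQ vb τb cb hvb h0b hε0
  obtain ⟨K3, h3⟩ := OB.source_inf (m := k + 1) (t := s) (by omega) hQ vc τc cc hvc h0c hε0
  obtain ⟨K, hK⟩ : ∃ K, K = max (max K₀ K1) (max (max K2 K3) (n + 2)) := ⟨_, rfl⟩
  have g0 : K₀ ≤ K := by omega
  have g1 : K1 ≤ K := by omega
  have g2 : K2 ≤ K := by omega
  have g3 : K3 ≤ K := by omega
  have g4 : n + 1 < K := by omega
  obtain ⟨R, hR, hpos, r1, r2, r3⟩ := hK₀ K g0 g4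
  obtain ⟨a0, x1, x2, x3⟩ := h1 K g1
  obtain ⟨b0, y1, y2, y3⟩ := h2 K g2
  obtain ⟨c0, z1, z2, z3⟩ := h3 K g3
  rw [show k + 1 + s = n + 1 by omega] at x1 x3 z1 z3
  rw [← hN] at y1 y3
  refine ⟨K, a0, b0, c0, fun B => if R B then 0 else ca + OB.HI K (k + 1) s Q va τa B,
    fun B => if R B then 0 else cb + OB.HI K k (s + 1) Q vb τb B,
    fun B => if R B then 0 else cc + OB.HI K (k + 1) s Q vc τc B,
    -OB.sv (k + 1) p1 (va 1) - ε, -OB.sv k p1 (vb 1) - ε, -OB.sv (k + 1) p1 (vc 1) - ε,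
    (k + 1).factorial * ε + c1, k.factorial * ε + c2, (k + 1).factorial * ε + c3,
    g4, ⟨x1, x2 (n + 1) g4 (by omega)⟩, ⟨y1, y2 (n + 1) g4 (by omega)⟩,
    ⟨z1, z2 (n + 1) g4 (by omega)⟩, ⟨?_, ?_, ?_⟩, ⟨?_, ?_, ?_⟩, fun B hB => ?_, fun B hB => ?_,
    fun B hB => ?_⟩
  · exact (loss_cut g4 x3 R).trans (add_le_add le_rfl r1)
  · exact (loss_cut g4 y3 R).trans (add_le_add le_rfl r2)
  · exact (loss_cut g4 z3 R).trans (add_le_add le_rfl r3)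
  · have := mul_comm ε ((k + 1).factorial : ℝ)
    linarith
  · linarith
  · have := mul_comm ε ((k + 1).factorial : ℝ)
    linarith
  · simp only
    split_ifs with h
    · exact le_rfl
    · exact (hpos B hB h).1
  · simp only
    split_ifs with h
    · exact le_rfl
    · exact (hpos B hB h).2.1
  · simp only
    split_ifs with h
    · simp
    · exact (hpos B hB h).2.2

end Pool.TW
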