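import Pool.Agent.Work.MP_46fa68_47.SrcDefs

set_option autoImplicit false

open Finset Equiv

namespace Pool.OB

open Pool.JM

/-! ## recursion -/

theorem pk_zero' : pk (fun _ _ => (0 : ℝ)) = fun _ _ => 0 := by
  funext x p
  unfold pk
  cases p with
  | zero => simp [adk]
  | succ p => simp only [adk]; ring

theorem pk_smul (a : ℝ) (k : ℕ → ℕ → ℝ) :
    pk (fun x p => a * k x p) = fun x p => a * pk k x p := by
  funext x p
  unfold pk
  cases p with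
  | zero => simp [adk]
  | succ p => simp only [adk]; ring

theorem pk_sum {ι : Type*} (s : Finset ι) (k : ι → ℕ → ℕ → ℝ) :
    pk (fun x p => ∑ i ∈ s, k i x p) = fun x p => ∑ i ∈ s, pk (k i) x p := by
  classical
  induction s using Finset.induction_on with
  | empty => simpa using pk_zero'
  | insert a s ha ih =>
    have e : (fun x p => ∑ i ∈ insert a s, k i x p) =
        fun x p => k a x p + ∑ i ∈ s, k i x p := by
      funext x p; rw [sum_insert ha]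
    rw [e, pk_add, ih]
    funext x p
    rw [sum_insert ha]

theorem pk_ks (M0 Q : ℕ) (v : ℕ → ℕ → ℝ) (τ : ℝ) (c : ℕ → ℝ) :
    pk (ks M0 Q v τ c) = ks M0 Q v τ (ps c) := by
  unfold ks
  rw [pk_add, pk_sum, pk_smul]
  funext x p
  rw [pk_kc]
  congr 1
  exact sum_congr rfl fun q _ => by rw [pk_kx]

theorem pkn_ks (M0 Q : ℕ) (v : ℕ → ℕ → ℝ) (τ : ℝ) (c : ℕ → ℝ) : ∀ s,
    pk^[s] (ks M0 Q v τ c) = ks M0 Q v τ (ps^[s] c)
  | 0 => rfl
  | s + 1 => by
    rw [Function.iterate_succ_apply', pkn_ks M0 Q v τ c s, pk_ks, Function.iterate_succ_apply']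

theorem pkt_ks (M0 Q t : ℕ) (v : ℕ → ℕ → ℝ) (τ : ℝ) :
    pk^[t] (ks M0 Q v τ (bi t)) = ks M0 Q v τ (dlt 0) := by
  rw [pkn_ks, psn_bi']

/-- the source -/
theorem ks_dlt {M0 : ℕ} (hM : 0 < M0) (Q : ℕ) (v : ℕ → ℕ → ℝ) (τ : ℝ) (x p : ℕ) :
    ks M0 Q v τ (dlt 0) x p =
      (∑ q ∈ range Q, if x = M0 + q - 1 then v q p else 0) +
        τ * if p = 0 ∧ M0 + Q - 1 ≤ x then 1 else 0 := by
  unfold ks
  congr 1
  · refine sum_congr rfl fun q _ => ?_
    rw [kx_dlt _ _ _ _ (by omega)]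
  · rw [← K0_eq]
    rfl

theorem kc_zero {M0 x p : ℕ} {c : ℕ → ℝ} (h : x + p < M0) : kc M0 c x p = 0 := by
  unfold kc kp
  split_ifs with h1 h2 h3
  · omega
  · ring
  · rw [Nat.choose_eq_zero_of_lt (by omega)]
    simp
  · ring

theorem ks_zero {M0 Q x p : ℕ} {v : ℕ → ℕ → ℝ} {τ : ℝ} {c : ℕ → ℝ} (hQ : 0 < Q)
    (h : x + p + 1 < M0) : ks M0 Q v τ c x p = 0 := by
  unfold ks
  rw [kc_zero (by omega), mul_zero, add_zero]
  exact sum_eq_zero fun q _ => kx_zero (by omega)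

theorem Sup_ks {M0 Q A : ℕ} (hQ : 0 < Q) (v : ℕ → ℕ → ℝ) (τ : ℝ) (c : ℕ → ℝ) :
    Sup (cut A (ks M0 Q v τ c)) (M0 - 1 - A) (A + 1) :=
  Sup_cut (M0 := M0) fun _ _ h1 h2 => ks_zero hQ (by omega)

/-! ## harmonicity -/

theorem lev_eq {K n : ℕ} {B : Finset ℕ} (hB : B ∈ Lv K n) : lev K B = n := by
  have h := (Lv_spec hB).2.2.2
  unfold lev
  rw [h]
  omega

theorem Hf_eq {K P N n : ℕ} (k : ℕ → ℕ → ℝ) {B : Finset ℕ} (hB : B ∈ Lv K n) :
    Hf K P N k B = E1 K P (pk^[N - n] k) B := by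
  unfold Hf
  rw [lev_eq hB]

theorem Harm_Hf {K P m N x1 p1 : ℕ} {k : ℕ → ℕ → ℝ} (hk : Sup k x1 p1) (hN : N ≤ K)
    (hx : N - m < x1) (hp : p1 + (N - m) ≤ P) : Harm K m N (Hf K P N k) := by
  intro n hn hnN C hC
  rw [Hf_eq k hC]
  have e : ∀ x ∈ ad C, w C x * Hf K P N k (mv C x) =
      w C x * E1 K P (pk^[N - (n + 1)] k) (mv C x) := by
    intro x hx
    rw [Hf_eq k (mv_mem hC hx)]
  rw [sum_congr rfl e]
  have h := Dop_E1 (K := K) (P := P) (n := n) (hk.pkn (N - (n + 1))) (by omega) (by omega) hC (by omega)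
  unfold Dop at h
  rw [h]
  have e2 : pk (pk^[N - (n + 1)] k) = pk^[N - n] k := by
    rw [show N - n = (N - (n + 1)) + 1 by omega, Function.iterate_succ_apply']
  rw [e2]

theorem Harm_Hs {K A m t Q : ℕ} (hQ : 0 < Q) (hm : 1 ≤ m) (hK : A + t + 2 + m ≤ K)
    (v : ℕ → ℕ → ℝ) (τ : ℝ) : Harm K m (m + t) (Hs K A m t Q v τ) :=
  Harm_Hf (Sup_ks hQ v τ (bi t)) (by omega) (by omega) (by omega)

theorem Harm_const {K m N : ℕ} (hN : N ≤ K) (c : ℝ) : Harm K m N (fun _ => c) := by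
  intro n _ hn C hC
  have h0 := Lv_zero_mem hC (by omega)
  have h1 : ∑ x ∈ ad C, w C x = 1 := by
    rw [← w_sum C h0]
    refine sum_subset (filter_subset _ _) fun x hx hx' => ?_
    refine w_zero ?_
    by_contra hcon
    exact hx' (mem_ad.2 ⟨hx, hcon⟩)
  rw [← sum_mul, h1, one_mul]

theorem Harm_add {K m N : ℕ} {a b : Finset ℕ → ℝ} (ha : Harm K m N a) (hb : Harm K m N b) :
    Harm K m N (fun B => a B + b B) := by
  intro n h1 h2 C hC
  simp only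
  rw [ha n h1 h2 C hC, hb n h1 h2 C hC, ← sum_add_distrib]
  exact sum_congr rfl fun x _ => by ring

theorem Harm_smul {K m N : ℕ} {a : Finset ℕ → ℝ} (ha : Harm K m N a) (r : ℝ) :
    Harm K m N (fun B => r * a B) := by
  intro n h1 h2 C hC
  simp only
  rw [ha n h1 h2 C hC, mul_sum]
  exact sum_congr rfl fun x _ => by ring

/-! ## the top level -/

theorem Hs_top {K A m t Q : ℕ} (v : ℕ → ℕ → ℝ) (τ : ℝ) {B : Finset ℕ} (hB : B ∈ Lv K (m + t)) :
    Hs K A m t Q v τ B =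
      ∑ x ∈ B, ∑ p ∈ range (A + 1), ks (K - 1 + m) Q v τ (bi t) x p * Rr B x p := by
  unfold Hs
  rw [Hf_eq _ hB, Nat.sub_self, Function.iterate_zero, id, E1_eq _ (Lv_spec hB).1]
  refine sum_congr rfl fun x _ => ?_
  rw [← sum_subset (range_subset_range.2 (by omega : A + 1 ≤ A + t + 2))]
  · refine sum_congr rfl fun p hp => ?_
    rw [mem_range] at hp
    unfold cut
    rw [if_pos (by omega)]
  · intro p _ hp
    rw [mem_range] at hp
    unfold cut
    rw [if_neg (by omega), zero_mul]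

/-! ## the level `m` -/

theorem Hs_level {K A m t Q : ℕ} (v : ℕ → ℕ → ℝ) (τ : ℝ) {B : Finset ℕ}
    (hB : B ∈ Lv K m) :
    Hs K A m t Q v τ B =
      (∑ x ∈ B, ∑ p ∈ range (A + 1), ks (K - 1 + m) Q v τ (dlt 0) x p * Rr B x p) +
      ∑ x ∈ B, ∑ p ∈ Ico (A + 1) (A + 1 + t),
        pk^[t] (cut A (ks (K - 1 + m) Q v τ (bi t))) x p * Rr B x p := by
  unfold Hs
  rw [Hf_eq _ hB, Nat.add_sub_cancel_left, E1_eq _ (Lv_spec hB).1, ← sum_add_distrib]
  refine sum_congr rfl fun x _ => ?_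
  rw [← sum_subset (range_subset_range.2 (by omega : A + 1 + t ≤ A + t + 2)) (fun p _ hp => by
      rw [mem_range, not_lt] at hp
      rw [pk_cut_zero _ _ _ _ _ (by omega), zero_mul]),
      range_eq_Ico, ← sum_Ico_consecutive _ (by omega : 0 ≤ A + 1) (by omega), ← range_eq_Ico]
  congr 1
  refine sum_congr rfl fun p hp => ?_
  rw [mem_range] at hp
  rw [pk_cut _ _ _ _ _ (by omega), pkt_ks]

end Pool.OB
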