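import Pool.Agent.Work.MP_46fa68_47.Src2

set_option autoImplicit false

open Finset Equiv

namespace Pool.OB

open Pool.JM

/-! ## class functions with almost the right values -/

theorem P_entry {N M m : ℕ} (hM : N < M) (hm : m ≤ N) (C : Finset ℕ) (σ τ : Perm (Fin N)) :
    |P N M m C σ τ| ≤ (P N M m C σ σ + P N M m C τ τ) / 2 := by
  have hg := good (N := N) hM m hm
  have key : ∀ a b : Perm (Fin N), P N M m C a b = ∑ ρ, P N M m C a ρ * P N M m C b ρ := by
    intro a b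
    have h := congrFun (congrFun (hg.idem C) a) b
    rw [Matrix.mul_apply] at h
    rw [← h]
    refine Finset.sum_congr rfl fun ρ _ => ?_
    congr 1
    have h2 := congrFun (congrFun (hg.symm C) b) ρ
    rw [Matrix.transpose_apply] at h2
    exact h2
  rw [key σ τ, key σ σ, key τ τ, ← Finset.sum_add_distrib, Finset.sum_div]
  refine (Finset.abs_sum_le_sum_abs _ _).trans (Finset.sum_le_sum fun ρ _ => ?_)
  rw [abs_le]
  constructor
  · nlinarith [sq_nonneg (P N M m C σ ρ + P N M m C τ ρ)]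
  · nlinarith [sq_nonneg (P N M m C σ ρ - P N M m C τ ρ)]

theorem P_tot_diag {N M m : ℕ} (hM : N < M) (hm : m ≤ N) (σ : Perm (Fin N)) :
    ∑ C ∈ Lv M m, P N M m C σ σ = 1 := by
  have hg := good (N := N) hM m hm
  have h := congrFun (congrFun hg.tot σ) σ
  rw [Matrix.one_apply_eq, Matrix.sum_apply] at h
  exact h

theorem G_close {N M m : ℕ} (hM : N < M) (hm : m ≤ N) (a b : Finset ℕ → ℝ) (ε : ℝ)
    (h : ∀ C ∈ Lv M m, |a C - b C| ≤ ε) (σ τ : Perm (Fin N)) :
    |G N M a m σ τ - G N M b m σ τ| ≤ ε := by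
  have e : G N M a m σ τ - G N M b m σ τ = ∑ C ∈ Lv M m, (a C - b C) * P N M m C σ τ := by
    unfold G
    rw [Matrix.sum_apply, Matrix.sum_apply, ← Finset.sum_sub_distrib]
    refine Finset.sum_congr rfl fun C _ => ?_
    rw [Matrix.smul_apply, Matrix.smul_apply, smul_eq_mul, smul_eq_mul]
    ring
  rw [e]
  refine (Finset.abs_sum_le_sum_abs _ _).trans ?_
  have h1 : ∀ C ∈ Lv M m, |(a C - b C) * P N M m C σ τ| ≤
      ε * ((P N M m C σ σ + P N M m C τ τ) / 2) := by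
    intro C hC
    rw [abs_mul]
    exact mul_le_mul (h C hC) (P_entry hM hm C σ τ) (abs_nonneg _)
      ((abs_nonneg _).trans (h C hC))
  refine (Finset.sum_le_sum h1).trans (le_of_eq ?_)
  rw [← Finset.mul_sum, ← Finset.sum_div, Finset.sum_add_distrib, P_tot_diag hM hm,
    P_tot_diag hM hm]
  ring

/-- **Values with a small error.** -/
theorem Val_close {N M : ℕ} (hM : N < M) {m : ℕ} (hm : m ≤ N) (a : Finset ℕ → ℝ) (p q ε : ℝ)
    (h : ∀ C ∈ Lv M m, |a C - (p - if C = Rw M m then q else 0)| ≤ ε / m.factorial) :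
    Val N M m a p (q - ε) := by
  classical
  intro σ hσ
  have h1 := G_const hM hm (fun C => p - if C = Rw M m then q else 0) p q (fun _ _ => rfl) hσ
  have h2 := (abs_le.1 (G_close hM hm a (fun C => p - if C = Rw M m then q else 0) _ h σ 1)).2
  rw [h1] at h2
  rw [sub_div]
  linarith

/-! ## the source lemma -/

theorem sum_cut {p1 n : ℕ} (h : p1 ≤ n) {f : ℕ → ℝ} (hf : ∀ p, p1 ≤ p → f p = 0) :
    ∑ p ∈ range n, f p = ∑ p ∈ range p1, f p := by
  rw [← sum_subset (range_subset_range.2 h)]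
  intro p _ hp
  rw [mem_range, not_lt] at hp
  exact hf p hp

theorem Hs_close {m t Q p1 : ℕ} (hm : 2 ≤ m) (hQ : 2 ≤ Q) (v : ℕ → ℕ → ℝ) (τ : ℝ)
    (hv : ∀ q p, p1 ≤ p → v q p = 0) (h0 : ∑ p ∈ range p1, v 0 p * r1 m p = 0)
    {δ : ℝ} (hδ : 0 < δ) (D : ℕ) : ∃ A₀ : ℕ, ∀ A, A₀ ≤ A → ∀ K, 1 ≤ K → K ≤ A + D →
      ∀ B ∈ Lv K m, |Hs K A m t Q v τ B - if B = Rw K m then sv m p1 (v 1) else 0| ≤ δ := by
  set V : ℕ → ℝ := fun q => ∑ p ∈ range p1, |v q p| with hVd
  have hV : ∀ q n, ∑ p ∈ range n, |v q p| ≤ V q := by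
    intro q n
    by_cases h : n ≤ p1
    · exact sum_le_sum_of_subset_of_nonneg (range_subset_range.2 h) fun _ _ _ => abs_nonneg _
    · rw [sum_cut (by omega : p1 ≤ n) fun p hp => by rw [hv q p hp, abs_zero]]
  set c : ℝ := t * 3 ^ t * (∑ q ∈ range Q, V q + |τ|) * 4 ^ t with hc
  have hV0 : 0 ≤ ∑ q ∈ range Q, V q + |τ| :=
    add_nonneg (sum_nonneg fun q _ => sum_nonneg fun _ _ => abs_nonneg _) (abs_nonneg _)
  have hc0 : 0 ≤ c := by positivity
  have h1 := (tendsto_tail c D).eventually (gt_mem_nhds hδ)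
  obtain ⟨A₀, hA₀⟩ := Filter.eventually_atTop.1 h1
  refine ⟨max A₀ p1, fun A hA K hK1 hK B hB => ?_⟩
  have hA1 : A₀ ≤ A := le_trans (le_max_left _ _) hA
  have hA2 : p1 ≤ A := le_trans (le_max_right _ _) hA
  rw [Hs_level v τ hB, src_value hK1 hm hQ v τ (by
    rw [sum_cut (by omega : p1 ≤ A + 1) fun p hp => by rw [hv 0 p hp, zero_mul]]
    exact h0) hB]
  have e1 : sv m (A + 1) (v 1) = sv m p1 (v 1) := by
    unfold sv
    exact sum_cut (by omega) fun p hp => by rw [hv 1 p hp, zero_mul]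
  rw [e1, add_sub_cancel_left]
  have h2 := Hs_tail (A := A) (m := m) (t := t) (Q := Q) v τ V hV (Lv_spec hB).1
  refine h2.trans (le_trans ?_ (hA₀ A hA1).le)
  refine mul_le_mul_of_nonneg_left (mul_le_mul_of_nonneg_right ?_ (by positivity)) hc0
  exact_mod_cast hK

/-- **The source lemma.**  `v q p`, `q < Q`: the bead at `M0 - 1 + q` moves by `p`; `τ`: beads at or
beyond `M0 - 1 + Q`.  The function `c0 + Hs` is harmonic between the levels `m` and `m + t` (no wall),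
its values at the level `m` are `c0 + s` at the one-row shape, `s = sv m p1 (v 1)`, and `c0` elsewhere,
up to an arbitrarily small error (absorbed in `ε`), and it is an explicit sum over the beads at the level
`m + t`. -/
theorem source {m t Q p1 : ℕ} (hm : 2 ≤ m) (hQ : 2 ≤ Q) (v : ℕ → ℕ → ℝ) (τ c0 : ℝ)
    (hv : ∀ q p, p1 ≤ p → v q p = 0) (h0 : ∑ p ∈ range p1, v 0 p * r1 m p = 0)
    {ε : ℝ} (hε : 0 < ε) (D : ℕ) : ∃ A₀ : ℕ, ∀ A, A₀ ≤ A → ∀ K, A + t + 2 + m ≤ K → K ≤ A + D →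
      Harm K m (m + t) (fun B => c0 + Hs K A m t Q v τ B) ∧
      (∀ N, N < K → m ≤ N →
        Val N K m (fun B => c0 + Hs K A m t Q v τ B) c0 (-sv m p1 (v 1) - ε)) ∧
      ∀ B ∈ Lv K (m + t), Hs K A m t Q v τ B =
        ∑ x ∈ B, ∑ p ∈ range (A + 1), ks (K - 1 + m) Q v τ (bi t) x p * Rr B x p := by
  have hf : (0 : ℝ) < m.factorial := by exact_mod_cast m.factorial_pos
  obtain ⟨A₀, hA₀⟩ := Hs_close (t := t) hm hQ v τ hv h0 (δ := ε / m.factorial) (by positivity) D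
  refine ⟨A₀, fun A hA K hK1 hK2 => ⟨?_, fun N hN hmN => ?_, fun B hB => Hs_top v τ hB⟩⟩
  · exact Harm_add (Harm_const (by omega) c0) (Harm_Hs (by omega) (by omega) (by omega) v τ)
  · refine Val_close hN hmN _ c0 (-sv m p1 (v 1)) ε fun C hC => ?_
    have h := hA₀ A hA K (by omega) hK2 C hC
    have e : c0 + Hs K A m t Q v τ C - (c0 - if C = Rw K m then -sv m p1 (v 1) else 0) =
        Hs K A m t Q v τ C - if C = Rw K m then sv m p1 (v 1) else 0 := by
      split_ifs <;> ring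
    rw [e]
    exact h

end Pool.OB
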