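import Pool.Agent.Work.MP_46fa68_h4.Kex
import Pool.Agent.Work.MP_46fa68_28.Joint

/-!
# MP_46fa68_co: one-bead functions from a general source (statements)

Sets `B` of `K` beads (`B ∈ Lv K n` = shapes with `n` boxes), wall `M0 = K - 1 + m`.
The kernel `ks M0 Q v τ (bi t)` is the `t`-fold lift of the source which moves a bead at
`M0 - 1 + q`, `q < Q`, by `p` with the weight `v q p`, and has the weight `τ` (no move) at the beads
`≥ M0 - 1 + Q`.  In layers: source `q' = q - 1 ≥ -1`, bead `M0 - j`, `i = q' + j ≥ 0`, displacement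
`P = p + a`, weight `v q p * (-1)^i C(t+a-1, a) C(a, i)`.
-/

set_option autoImplicit false

open Finset Equiv

namespace Pool.OB

open Pool.JM

/-- the kernel of a general source, coefficients `c` -/
noncomputable def ks (M0 Q : ℕ) (v : ℕ → ℕ → ℝ) (τ : ℝ) (c : ℕ → ℝ) : ℕ → ℕ → ℝ := fun x p =>
  (∑ q ∈ range Q, kx (M0 + q) (v q) c x p) + τ * kc (M0 + Q - 1) c x p

/-- the number of boxes of a set of `K` beads -/
def lev (K : ℕ) (B : Finset ℕ) : ℕ := ∑ x ∈ B, x - ∑ x ∈ range K, x

/-- the function on all levels with the kernel `k` at the level `N` -/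
noncomputable def Hf (K P N : ℕ) (k : ℕ → ℕ → ℝ) (B : Finset ℕ) : ℝ :=
  E1 K P (pk^[N - lev K B] k) B

/-- **the one-bead function**: `K` beads, level `N = m + t`, truncated at the displacement `A` -/
noncomputable def Hs (K A m t Q : ℕ) (v : ℕ → ℕ → ℝ) (τ : ℝ) (B : Finset ℕ) : ℝ :=
  Hf K (A + t + 2) (m + t) (cut A (ks (K - 1 + m) Q v τ (bi t))) B

end Pool.OB
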